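import Mathlib

/-!
Definitions for the equality case of Chudnovsky's bound.
-/

set_option autoImplicit false

namespace Pool.Agent.Chud

open MvPolynomial

/-- Projective space of dimension `N` over `k`: the lines through the origin of `k ^ (N + 1)`. -/
abbrev PP (k : Type*) [Field k] (N : ℕ) := Projectivization k (Fin (N + 1) → k)

section

variable {k : Type*} [Field k]

/-- The maximal ideal of the point `v` of affine space: the polynomials which vanish at `v`. -/
noncomputable def mI {σ : Type*} (v : σ → k) : Ideal (MvPolynomial σ k) :=
  RingHom.ker (MvPolynomial.eval v)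

/-- `F` vanishes to order at least `m` at the point `p` of projective space: `F` belongs to the
`m`-th power of the maximal ideal of a representative of `p` in `k ^ (N + 1)`. -/
def VanishAt {N : ℕ} (F : MvPolynomial (Fin (N + 1)) k) (m : ℕ) (p : PP k N) : Prop :=
  F ∈ mI p.rep ^ m

/-- `a(S,m)`: the least degree of a nonzero form which vanishes to order at least `m` at every
point of `S`. -/
noncomputable def aS {N : ℕ} (S : Finset (PP k N)) (m : ℕ) : ℕ :=
  sInf {d | ∃ F : MvPolynomial (Fin (N + 1)) k, F ≠ 0 ∧ F.IsHomogeneous d ∧ ∀ p ∈ S, VanishAt F m p}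

/-- The point `p` lies on the hyperplane with coefficients `h`. -/
def OnH {N : ℕ} (h p : PP k N) : Prop := ∑ i, h.rep i * p.rep i = 0

/-- `S` is contained in a hyperplane. -/
def InHyperplane {N : ℕ} (S : Finset (PP k N)) : Prop := ∃ h : PP k N, ∀ p ∈ S, OnH h p

open Classical in
/-- `S` is a star configuration: there are `s ≥ N` (distinct) hyperplanes such that no point lies on
more than `N` of them, and `S` is the set of the points which lie on `N` of them. -/
def IsStar {N : ℕ} (S : Finset (PP k N)) : Prop :=
  ∃ H : Finset (PP k N), N ≤ H.card ∧ (∀ p : PP k N, (H.filter (fun h => OnH h p)).card ≤ N) ∧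
    ∀ p : PP k N, p ∈ S ↔ (H.filter (fun h => OnH h p)).card = N

end

end Pool.Agent.Chud
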