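import Mathlib
import Pool.Agent.Chud.Defs
import Pool.Agent.Chud.Tools

set_option autoImplicit false

namespace Pool.Agent.Chud

open MvPolynomial

/-! ### tools -/

variable {k : Type*} [Field k]

theorem trans_neg_trans {σ : Type*} (v : σ → k) (F : MvPolynomial σ k) :
    trans (-v) (trans v F) = F := by
  have h : (trans (-v)).comp (trans v) = AlgHom.id k (MvPolynomial σ k) := by
    apply MvPolynomial.algHom_ext
    intro i
    simp [trans]
  exact DFunLike.congr_fun h F

/-- translation as an equivalence -/
noncomputable def transE {σ : Type*} (v : σ → k) : MvPolynomial σ k ≃+* MvPolynomial σ k where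
  toFun := trans v
  invFun := trans (-v)
  left_inv := trans_neg_trans v
  right_inv := by
    intro F
    have := trans_neg_trans (-v) F
    rwa [neg_neg] at this
  map_mul' := map_mul _
  map_add' := map_add _

theorem transE_apply {σ : Type*} (v : σ → k) (F : MvPolynomial σ k) : transE v F = trans v F := rfl

theorem eval_trans {σ : Type*} (v : σ → k) (F : MvPolynomial σ k) :
    eval (0 : σ → k) (trans v F) = eval v F := by
  have h : ((aeval (0 : σ → k) : MvPolynomial σ k →ₐ[k] k)).comp (trans v) = aeval v := by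
    apply MvPolynomial.algHom_ext
    intro i
    simp [trans]
  have h2 := DFunLike.congr_fun h F
  simpa [MvPolynomial.coe_aeval_eq_eval] using h2

theorem mI_zero {σ : Type*} : mI (0 : σ → k) = idealOfVars σ k := by
  ext F
  have h := mem_pow_idealOfVars_iff' (σ := σ) (R := k) 1 F
  rw [pow_one] at h
  rw [h]
  unfold mI
  rw [RingHom.mem_ker]
  have h2 : eval (0 : σ → k) F = F.coeff 0 := by
    have : (eval (0 : σ → k) : MvPolynomial σ k →+* k) = constantCoeff := by
      apply MvPolynomial.ringHom_ext
      · intro r; simp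
      · intro i; simp
    rw [this]; rfl
  rw [h2]
  constructor
  · intro h0 x hx
    have : x = 0 := by
      rw [Nat.lt_one_iff] at hx
      exact (Finsupp.degree_eq_zero_iff x).1 hx
    rw [this]; exact h0
  · intro h0
    exact h0 0 (by simp)

theorem mI_eq_comap {σ : Type*} (v : σ → k) :
    mI v = (idealOfVars σ k).comap (transE v) := by
  ext F
  rw [Ideal.mem_comap, ← mI_zero]
  unfold mI
  rw [RingHom.mem_ker, RingHom.mem_ker]
  change _ ↔ eval 0 (transE v F) = 0
  rw [transE_apply, eval_trans]

theorem mI_pow_eq_comap {σ : Type*} (v : σ → k) (m : ℕ) :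
    mI v ^ m = (idealOfVars σ k ^ m).comap (transE v) := by
  rw [mI_eq_comap, ← Ideal.map_symm, ← Ideal.map_symm, Ideal.map_pow]

theorem trans_ne_zero {σ : Type*} (v : σ → k) {F : MvPolynomial σ k} (hF : F ≠ 0) :
    trans v F ≠ 0 := by
  intro h
  apply hF
  rw [← trans_neg_trans v F, h, map_zero]

theorem order_fin {σ : Type*} {G : MvPolynomial σ k} (hG : G ≠ 0) :
    ((G : MvPowerSeries σ k).order.toNat : ℕ∞) = (G : MvPowerSeries σ k).order := by
  apply MvPowerSeries.ne_zero_iff_order_finite.1
  intro h
  apply hG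
  exact MvPolynomial.coe_injective σ k (by rw [h, MvPolynomial.coe_zero])

-- TARGET
theorem mem_mI_pow_iff {σ : Type*} [Finite σ] (v : σ → k) {F : MvPolynomial σ k} (hF : F ≠ 0) (m : ℕ) :
    F ∈ mI v ^ m ↔ m ≤ mu v F := by
  have hG := trans_ne_zero v hF
  rw [mI_pow_eq_comap, Ideal.mem_comap]
  change transE v F ∈ _ ↔ _
  rw [transE_apply, mem_pow_idealOfVars_iff']
  unfold mu
  constructor
  · intro h
    have h1 : (m : ℕ∞) ≤ ((trans v F : MvPolynomial σ k) : MvPowerSeries σ k).order := by
      apply MvPowerSeries.nat_le_order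
      intro d hd
      rw [MvPolynomial.coeff_coe]
      exact h d hd
    rw [← order_fin hG] at h1
    exact_mod_cast h1
  · intro h x hx
    have h1 : ((Finsupp.degree x : ℕ) : ℕ∞)
        < ((trans v F : MvPolynomial σ k) : MvPowerSeries σ k).order := by
      rw [← order_fin hG]
      exact_mod_cast lt_of_lt_of_le hx h
    have h2 := MvPowerSeries.coeff_of_lt_order h1
    rwa [MvPolynomial.coeff_coe] at h2

-- TARGET
theorem mu_mul {σ : Type*} [Finite σ] (v : σ → k) {F G : MvPolynomial σ k} (hF : F ≠ 0) (hG : G ≠ 0) :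
    mu v (F * G) = mu v F + mu v G := by
  have h1 := order_fin (trans_ne_zero v hF)
  have h2 := order_fin (trans_ne_zero v hG)
  have h3 := order_fin (trans_ne_zero v (mul_ne_zero hF hG))
  rw [map_mul, MvPolynomial.coe_mul, MvPowerSeries.order_mul] at h3
  unfold mu
  rw [map_mul, MvPolynomial.coe_mul, MvPowerSeries.order_mul]
  rw [← h1, ← h2] at h3 ⊢
  exact_mod_cast h3

theorem totalDegree_trans_le {σ : Type*} (v : σ → k) (F : MvPolynomial σ k) :
    (trans v F).totalDegree ≤ F.totalDegree := by
  have h1 : trans v F = ∑ d ∈ F.support, trans v (monomial d (F.coeff d)) := by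
    conv_lhs => rw [F.as_sum]
    rw [map_sum]
  rw [h1]
  refine (totalDegree_finsetSum _ _).trans ?_
  apply Finset.sup_le
  intro d hd
  have h2 : trans v (monomial d (F.coeff d))
      = C (F.coeff d) * d.prod fun i e => (X i + C (v i)) ^ e := by
    unfold trans
    rw [aeval_monomial]
    rfl
  rw [h2]
  refine (totalDegree_mul _ _).trans ?_
  rw [totalDegree_C, zero_add]
  unfold Finsupp.prod
  refine (totalDegree_finsetProd _ _).trans ?_
  refine le_trans ?_ (le_totalDegree hd)
  unfold Finsupp.sum
  apply Finset.sum_le_sum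
  intro i _
  refine (totalDegree_pow _ _).trans ?_
  have h3 : (X i + C (v i) : MvPolynomial σ k).totalDegree ≤ 1 := by
    refine (totalDegree_add _ _).trans ?_
    rw [totalDegree_X, totalDegree_C]
    simp
  calc d i * (X i + C (v i) : MvPolynomial σ k).totalDegree ≤ d i * 1 :=
        Nat.mul_le_mul_left _ h3
    _ = d i := mul_one _

-- TARGET
theorem mu_le_totalDegree {σ : Type*} [Finite σ] (v : σ → k) {F : MvPolynomial σ k} (hF : F ≠ 0) :
    mu v F ≤ F.totalDegree := by
  have hG := trans_ne_zero v hF
  obtain ⟨d, hd⟩ := MvPolynomial.support_nonempty.2 hG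
  have h1 : ((trans v F : MvPolynomial σ k) : MvPowerSeries σ k).order ≤ Finsupp.degree d := by
    apply MvPowerSeries.order_le
    rw [MvPolynomial.coeff_coe]
    exact MvPolynomial.mem_support_iff.1 hd
  rw [← order_fin hG] at h1
  have h2 : mu v F ≤ Finsupp.degree d := by
    unfold mu
    exact_mod_cast h1
  refine h2.trans ((le_trans ?_ (le_totalDegree hd)).trans (totalDegree_trans_le v F))
  rw [Finsupp.degree_apply]
  rfl

-- TARGET
theorem mu_pos_iff {σ : Type*} [Finite σ] (v : σ → k) {F : MvPolynomial σ k} (hF : F ≠ 0) :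
    0 < mu v F ↔ eval v F = 0 := by
  have h := mem_mI_pow_iff v hF 1
  rw [pow_one] at h
  rw [← Nat.one_le_iff_ne_zero.trans Nat.pos_iff_ne_zero.symm, ← h]
  unfold mI
  rw [RingHom.mem_ker]

end Pool.Agent.Chud
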