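import Mathlib
import Pool.Agent.Chud.Defs
import Pool.Agent.Chud.Tools

set_option autoImplicit false

namespace Pool.Agent.Chud

open MvPolynomial

/-! ### tools -/

variable {k : Type*} [Field k]

-- TARGET
theorem deriv_mem {σ : Type*} (v : σ → k) (D : Derivation k (MvPolynomial σ k) (MvPolynomial σ k))
    (m : ℕ) (F : MvPolynomial σ k) (h : F ∈ mI v ^ (m + 1)) : D F ∈ mI v ^ m := by
  induction m generalizing F with
  | zero => simp
  | succ m ih =>
    rw [pow_succ] at h
    refine Submodule.mul_induction_on h ?_ ?_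
    · intro x hx y hy
      rw [Derivation.leibniz, smul_eq_mul, smul_eq_mul]
      refine Ideal.add_mem _ (Ideal.mul_mem_right _ _ hx) ?_
      rw [pow_succ, mul_comm (mI v ^ m)]
      exact Ideal.mul_mem_mul hy (ih x hx)
    · intro x y hx hy
      rw [map_add]
      exact Ideal.add_mem _ hx hy

-- TARGET
theorem polar_mem {σ : Type*} [Fintype σ] (q v : σ → k) (m : ℕ) (F : MvPolynomial σ k)
    (h : F ∈ mI v ^ (m + 1)) : polar q F ∈ mI v ^ m := by
  unfold polar
  exact Ideal.sum_mem _ fun i _ => Ideal.mul_mem_left _ _ (deriv_mem v (pderiv i) m F h)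

-- TARGET
theorem polar_homog {σ : Type*} [Fintype σ] (q : σ → k) {F : MvPolynomial σ k} {d : ℕ}
    (hF : F.IsHomogeneous d) : (polar q F).IsHomogeneous (d - 1) := by
  unfold polar
  refine IsHomogeneous.sum _ _ _ fun i _ => ?_
  have h1 := (isHomogeneous_C σ (q i)).mul (hF.pderiv (i := i))
  rwa [zero_add] at h1

-- TARGET
theorem eval_polar {σ : Type*} [Fintype σ] (q : σ → k) {F : MvPolynomial σ k} {d : ℕ}
    (hF : F.IsHomogeneous d) (h0 : eval q F = 0) : eval q (polar q F) = 0 := by
  have h1 := congrArg (eval q) hF.sum_X_mul_pderiv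
  unfold polar
  rw [map_sum] at h1 ⊢
  simp only [map_mul, eval_C, eval_X] at h1 ⊢
  rw [h1, map_nsmul, h0, smul_zero]

end Pool.Agent.Chud
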