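import Mathlib
import Pool.Agent.Chud.Defs
import Pool.Agent.Chud.Tools

set_option autoImplicit false

namespace Pool.Agent.Chud

open MvPolynomial

/-! ### tools -/

variable {k : Type*} [Field k]

-- TARGET
/-- an irreducible polynomial over an algebraically closed field has a nonzero partial
derivative -/
theorem exists_pderiv_ne_zero [IsAlgClosed k] {σ : Type*} [Finite σ] {F : MvPolynomial σ k}
    (hF : Irreducible F) : ∃ i, pderiv i F ≠ 0 := by
  classical
  by_contra hcon
  push Not at hcon
  have h1 : ∀ d ∈ F.support, ∀ i, ((d i : ℕ) : k) = 0 := by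
    intro d hd i
    rcases Nat.eq_zero_or_pos (d i) with h0 | h0
    · rw [h0]; simp
    · obtain ⟨e, he⟩ : ∃ e : σ →₀ ℕ, e = d - Finsupp.single i 1 := ⟨_, rfl⟩
      have h2 := coeff_pderiv (i := i) F e
      have h3 : e + Finsupp.single i 1 = d := by
        rw [he]
        apply tsub_add_cancel_of_le
        rw [Finsupp.single_le_iff]
        exact h0
      rw [hcon i, h3, coeff_zero] at h2
      have h4 := (mul_eq_zero.mp h2.symm).resolve_left (mem_support_iff.mp hd)
      have h5 : e i + 1 = d i := by
        rw [← h3, Finsupp.add_apply, Finsupp.single_eq_same]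
      rw [← h5]
      push_cast
      exact_mod_cast h4
  obtain ⟨p, hp⟩ := ExpChar.exists k
  rcases hp with _ | hpp
  · -- characteristic zero
    have h2 : F = C (coeff 0 F) := by
      ext d
      rw [coeff_C]
      split_ifs with h
      · rw [h]
      · by_contra h3
        apply h
        have h4 := h1 d (mem_support_iff.mpr h3)
        ext i
        have := h4 i
        rw [Finsupp.zero_apply]
        exact (Nat.cast_eq_zero.mp this).symm
    by_cases hc : coeff 0 F = 0
    · rw [hc, C_0] at h2
      exact hF.ne_zero h2
    · apply hF.not_isUnit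
      rw [h2]
      exact (isUnit_iff_ne_zero.mpr hc).map C
  · -- characteristic p
    have : Fact p.Prime := ⟨hpp⟩
    have hp0 : 0 < p := hpp.pos
    have hdvd : ∀ d ∈ F.support, ∀ i, p ∣ d i := by
      intro d hd i
      exact (CharP.cast_eq_zero_iff k p (d i)).mp (h1 d hd i)
    choose r hr using fun x : k => IsAlgClosed.exists_pow_nat_eq x hp0
    have key : F = (∑ d ∈ F.support, monomial (d.mapRange (fun n => n / p) (Nat.zero_div p)) (r (coeff d F))) ^ p := by
      rw [sum_pow_char]
      conv_lhs => rw [F.as_sum]
      apply Finset.sum_congr rfl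
      intro d hd
      rw [monomial_pow, hr]
      congr 2
      apply Finsupp.ext
      intro i
      rw [Finsupp.smul_apply, Finsupp.mapRange_apply, smul_eq_mul]
      exact (Nat.mul_div_cancel' (hdvd d hd i)).symm
    rw [key] at hF
    exact not_irreducible_pow hpp.ne_one hF


end Pool.Agent.Chud
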