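import Mathlib
import Pool.Agent.Chud.Defs
import Pool.Agent.Chud.Tools

set_option autoImplicit false

namespace Pool.Agent.Chud

open MvPolynomial

/-! ### tools -/

variable {k : Type*} [Field k]

-- TARGET
theorem finrank_forms (n : ℕ) :
    Module.finrank k (homogeneousSubmodule (Fin 3) k n) = (n + 2).choose 2 := by
  have h1 : homogeneousSubmodule (Fin 3) k n = restrictSupport k {d : Fin 3 →₀ ℕ | d.degree = n} :=
    homogeneousSubmodule_eq_finsupp_supported (R := k) (σ := Fin 3) n
  rw [h1, Module.finrank_eq_nat_card_basis (basisRestrictSupport k {d : Fin 3 →₀ ℕ | d.degree = n})]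
  have e : {d : Fin 3 →₀ ℕ | d.degree = n} ≃ Sym (Fin 3) n :=
    (Equiv.subtypeEquivRight (fun d => Iff.rfl)).trans
      (Sym.equivNatSum (Fin 3) n).symm
  rw [Nat.card_congr e, Nat.card_eq_fintype_card, Sym.card_sym_eq_choose, Fintype.card_fin]
  have : 3 + n - 1 = n + 2 := by omega
  rw [this, ← Nat.choose_symm_add]

end Pool.Agent.Chud
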