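import Mathlib
import Pool.Agent.Chud.Defs
import Pool.Agent.Chud.Tools

set_option autoImplicit false

namespace Pool.Agent.Chud

open MvPolynomial

/-! ### tools -/

variable {k : Type*} [Field k]

theorem coeff_lin_aux {N : ℕ} (c : Fin (N + 1) → k) (i : Fin (N + 1)) :
    coeff (Finsupp.single i 1) (∑ j, C (c j) * X j : MvPolynomial (Fin (N + 1)) k) = c i := by
  rw [coeff_sum]
  rw [Finset.sum_eq_single i]
  · rw [coeff_C_mul, coeff_X, if_pos rfl, mul_one]
  · intro j _ hj
    rw [coeff_C_mul, coeff_X, if_neg, mul_zero]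
    intro h
    exact hj (Finsupp.single_left_injective one_ne_zero h)
  · intro h
    exact absurd (Finset.mem_univ i) h

theorem sum_homog_aux {N : ℕ} (c : Fin (N + 1) → k) :
    (∑ j, C (c j) * X j : MvPolynomial (Fin (N + 1)) k).IsHomogeneous 1 := by
  refine IsHomogeneous.sum _ _ _ fun i _ => ?_
  have := (isHomogeneous_C (Fin (N + 1)) (c i)).mul (isHomogeneous_X k i)
  rwa [zero_add] at this

theorem eq_sum_aux {N : ℕ} {F : MvPolynomial (Fin (N + 1)) k} (hF : F.IsHomogeneous 1) :
    F = ∑ j, C (coeff (Finsupp.single j 1) F) * X j := by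
  ext m
  by_cases hm : m.degree = 1
  · obtain ⟨a, rfl⟩ := (Finsupp.sum_eq_one_iff m).1 hm
    rw [coeff_lin_aux]
  · rw [hF.coeff_eq_zero hm, (sum_homog_aux _).coeff_eq_zero hm]

-- TARGET
theorem lin_homog {N : ℕ} (h : PP k N) : (lin h).IsHomogeneous 1 := sum_homog_aux _

-- TARGET
theorem lin_ne_zero {N : ℕ} (h : PP k N) : lin h ≠ 0 := by
  intro h0
  refine h.rep_nonzero (funext fun i => ?_)
  have h1 := coeff_lin_aux h.rep i
  have h2 : (∑ j, C (h.rep j) * X j : MvPolynomial (Fin (N + 1)) k) = 0 := h0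
  rw [h2, coeff_zero] at h1
  exact h1.symm

-- TARGET
theorem lin_irreducible {N : ℕ} (h : PP k N) : Irreducible (lin h) := by
  have h1 := (lin_homog h).totalDegree (lin_ne_zero h)
  constructor
  · intro hu
    have h2 := (isUnit_iff_totalDegree_of_isReduced.1 hu).2
    omega
  · intro a b hab
    have ha : a ≠ 0 := by
      rintro rfl
      exact lin_ne_zero h (by rw [hab, zero_mul])
    have hb : b ≠ 0 := by
      rintro rfl
      exact lin_ne_zero h (by rw [hab, mul_zero])
    have h2 := totalDegree_mul_of_isDomain ha hb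
    rw [← hab, h1] at h2
    have key : ∀ f : MvPolynomial (Fin (N + 1)) k, f ≠ 0 → f.totalDegree = 0 → IsUnit f := by
      intro f hf0 hf
      rw [isUnit_iff_totalDegree_of_isReduced]
      refine ⟨?_, hf⟩
      rw [isUnit_iff_ne_zero]
      intro h3
      apply hf0
      rw [totalDegree_eq_zero_iff_eq_C.1 hf, h3, C_0]
    rcases Nat.eq_zero_or_pos a.totalDegree with h3 | h3
    · exact Or.inl (key a ha h3)
    · exact Or.inr (key b hb (by omega))

-- TARGET
theorem eval_lin {N : ℕ} (h p : PP k N) : eval p.rep (lin h) = 0 ↔ OnH h p := by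
  unfold lin OnH
  rw [map_sum]
  simp only [map_mul, eval_C, eval_X]

-- TARGET
/-- every nonzero linear form is a multiple of some `lin h` -/
theorem exists_lin {N : ℕ} {F : MvPolynomial (Fin (N + 1)) k} (hF : F.IsHomogeneous 1) (h0 : F ≠ 0) :
    ∃ (h : PP k N) (c : k), c ≠ 0 ∧ F = C c * lin h := by
  have hc : (fun j => coeff (Finsupp.single j 1) F) ≠ (0 : Fin (N + 1) → k) := by
    intro hc
    apply h0
    rw [eq_sum_aux hF]
    refine Finset.sum_eq_zero fun j _ => ?_
    have : coeff (Finsupp.single j 1) F = 0 := congrFun hc j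
    rw [this, C_0, zero_mul]
  obtain ⟨a, ha⟩ := Projectivization.exists_smul_eq_mk_rep k _ hc
  refine ⟨Projectivization.mk k _ hc, ((a⁻¹ : kˣ) : k), Units.ne_zero _, ?_⟩
  nth_rewrite 1 [eq_sum_aux hF]
  unfold lin
  rw [Finset.mul_sum]
  refine Finset.sum_congr rfl fun j _ => ?_
  rw [← ha]
  rw [← mul_assoc, ← C_mul]
  congr 2
  show _ = ((a⁻¹ : kˣ) : k) * ((a : k) * coeff (Finsupp.single j 1) F)
  rw [← mul_assoc, Units.inv_mul, one_mul]

end Pool.Agent.Chud
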