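import Mathlib
import Pool.Agent.Chud.Defs
import Pool.Agent.Chud.Tools
import Pool.Agent.Chud.PE1

set_option autoImplicit false

namespace Pool.Agent.Chud

open MvPolynomial

/-! ### tools -/

variable {k : Type*} [Field k]

theorem eq_of_minors {N : ℕ} {p q : PP k N}
    (h : ∀ i j, p.rep i * q.rep j = p.rep j * q.rep i) : p = q := by
  obtain ⟨i, hi⟩ : ∃ i, q.rep i ≠ 0 := by
    by_contra hcon
    push Not at hcon
    exact q.rep_nonzero (funext hcon)
  rw [← p.mk_rep, ← q.mk_rep, Projectivization.mk_eq_mk_iff']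
  refine ⟨p.rep i / q.rep i, ?_⟩
  funext j
  rw [Pi.smul_apply, smul_eq_mul, div_mul_eq_mul_div, div_eq_iff hi]
  exact h i j

theorem OnH_symm {N : ℕ} {h p : PP k N} (hh : OnH h p) : OnH p h := by
  unfold OnH at *
  rw [← hh]
  exact Finset.sum_congr rfl fun i _ => mul_comm _ _

theorem OnH_mk {N : ℕ} (c : Fin (N + 1) → k) (hc : c ≠ 0) (p : PP k N) :
    OnH (Projectivization.mk k c hc) p ↔ ∑ i, c i * p.rep i = 0 := by
  obtain ⟨a, ha⟩ := Projectivization.exists_smul_eq_mk_rep k c hc
  unfold OnH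
  rw [← ha]
  have h1 : ∑ i, (a • c) i * p.rep i = (a : k) * ∑ i, c i * p.rep i := by
    rw [Finset.mul_sum]
    refine Finset.sum_congr rfl fun i _ => ?_
    rw [Pi.smul_apply, Units.smul_def, smul_eq_mul, mul_assoc]
  rw [h1]
  exact mul_eq_zero_iff_left a.ne_zero

-- TARGET
/-- a linear form through `p` which avoids `q` -/
theorem exists_OnH_not {N : ℕ} {p q : PP k N} (hpq : p ≠ q) : ∃ h : PP k N, OnH h p ∧ ¬ OnH h q := by
  obtain ⟨i, j, hij⟩ : ∃ i j, p.rep i * q.rep j ≠ p.rep j * q.rep i := by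
    by_contra hcon
    push Not at hcon
    exact hpq (eq_of_minors hcon)
  set c : Fin (N + 1) → k := Pi.single j (p.rep i) - Pi.single i (p.rep j) with hc
  have hsum : ∀ v : Fin (N + 1) → k, ∑ m, c m * v m = p.rep i * v j - p.rep j * v i := by
    intro v
    simp [hc, sub_mul, Finset.sum_sub_distrib, Pi.single_apply]
  have hc0 : c ≠ 0 := by
    intro h0
    have := hsum q.rep
    rw [h0] at this
    simp only [Pi.zero_apply, zero_mul, Finset.sum_const_zero] at this
    exact hij (sub_eq_zero.1 this.symm)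
  refine ⟨Projectivization.mk k c hc0, ?_, ?_⟩
  · rw [OnH_mk, hsum]; ring
  · rw [OnH_mk, hsum]
    exact fun h => hij (sub_eq_zero.1 h)

-- TARGET
/-- a hyperplane avoiding `q` -/
theorem exists_not_OnH {N : ℕ} (q : PP k N) : ∃ h : PP k N, ¬ OnH h q := by
  obtain ⟨i, hi⟩ : ∃ i, q.rep i ≠ 0 := by
    by_contra hcon
    push Not at hcon
    exact q.rep_nonzero (funext hcon)
  have hc0 : (Pi.single i 1 : Fin (N + 1) → k) ≠ 0 := by
    intro h0
    have := congrFun h0 i
    simp at this
  refine ⟨Projectivization.mk k _ hc0, ?_⟩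
  rw [OnH_mk]
  simpa [Pi.single_apply] using hi

-- TARGET
/-- two distinct lines of the plane have a unique common point -/
theorem lines_meet {h h' : PP k 2} (hne : h ≠ h') : ∃! p : PP k 2, OnH h p ∧ OnH h' p := by
  obtain ⟨i, j, hij⟩ : ∃ i j, h.rep i * h'.rep j ≠ h.rep j * h'.rep i := by
    by_contra hcon
    push Not at hcon
    exact hne (eq_of_minors hcon)
  set a := h.rep with ha
  set b := h'.rep with hb
  set w : Fin 3 → k := ![a 1 * b 2 - a 2 * b 1, a 2 * b 0 - a 0 * b 2, a 0 * b 1 - a 1 * b 0] with hw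
  have w0 : w 0 = a 1 * b 2 - a 2 * b 1 := rfl
  have w1 : w 1 = a 2 * b 0 - a 0 * b 2 := rfl
  have w2 : w 2 = a 0 * b 1 - a 1 * b 0 := rfl
  have hw0 : w ≠ 0 := by
    intro h0
    have e0 : a 1 * b 2 - a 2 * b 1 = 0 := congrFun h0 0
    have e1 : a 2 * b 0 - a 0 * b 2 = 0 := congrFun h0 1
    have e2 : a 0 * b 1 - a 1 * b 0 = 0 := congrFun h0 2
    apply hij
    fin_cases i <;> fin_cases j <;> simp only [Fin.zero_eta, Fin.mk_one, Fin.reduceFinMk]
    · linear_combination e2
    · linear_combination (-1 : k) * e1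
    · linear_combination (-1 : k) * e2
    · linear_combination e0
    · linear_combination e1
    · linear_combination (-1 : k) * e0
  refine ⟨Projectivization.mk k w hw0, ⟨?_, ?_⟩, ?_⟩
  · apply OnH_symm
    rw [OnH_mk, Fin.sum_univ_three, ← ha, w0, w1, w2]
    ring
  · apply OnH_symm
    rw [OnH_mk, Fin.sum_univ_three, ← hb, w0, w1, w2]
    ring
  · rintro p ⟨h1, h2⟩
    unfold OnH at h1 h2
    rw [← ha, Fin.sum_univ_three] at h1
    rw [← hb, Fin.sum_univ_three] at h2
    rw [← p.mk_rep, Projectivization.mk_eq_mk_iff']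
    set v := p.rep with hv
    have f01 : v 0 * w 1 = v 1 * w 0 := by
      rw [w0, w1]; linear_combination a 2 * h2 - b 2 * h1
    have f02 : v 0 * w 2 = v 2 * w 0 := by
      rw [w0, w2]; linear_combination b 1 * h1 - a 1 * h2
    have f12 : v 1 * w 2 = v 2 * w 1 := by
      rw [w1, w2]; linear_combination a 0 * h2 - b 0 * h1
    have key : ∀ i j, v i * w j = v j * w i := by
      intro i j
      fin_cases i <;> fin_cases j <;> simp only [Fin.zero_eta, Fin.mk_one, Fin.reduceFinMk]
      · exact f01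
      · exact f02
      · exact f01.symm
      · exact f12
      · exact f02.symm
      · exact f12.symm
    obtain ⟨i, hi⟩ : ∃ i, w i ≠ 0 := by
      by_contra hcon
      push Not at hcon
      exact hw0 (funext hcon)
    refine ⟨v i / w i, ?_⟩
    funext j
    rw [Pi.smul_apply, smul_eq_mul, div_mul_eq_mul_div, div_eq_iff hi]
    exact key i j

-- TARGET
/-- at most one line through two distinct points -/
theorem line_unique {h h' p q : PP k 2} (hpq : p ≠ q) (h1 : OnH h p) (h2 : OnH h q) (h3 : OnH h' p)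
    (h4 : OnH h' q) : h = h' := by
  obtain ⟨r, _, hr⟩ := lines_meet hpq
  rw [hr h ⟨OnH_symm h1, OnH_symm h2⟩, hr h' ⟨OnH_symm h3, OnH_symm h4⟩]

end Pool.Agent.Chud
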