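import Mathlib
import Pool.Agent.Chud.Defs
import Pool.Agent.Chud.Tools
import Pool.Agent.Chud.Bez1
import Pool.Agent.Chud.PD1
import Pool.Agent.Chud.PD2
import Pool.Agent.Chud.PE1
import Pool.Agent.Chud.PE2

set_option autoImplicit false

namespace Pool.Agent.Chud

open MvPolynomial

variable {k : Type*} [Field k]

/-- chart at a point -/
noncomputable def chart (p : PP k 2) : Chart p.rep := (exists_chart p.rep p.rep_nonzero).some

open Classical in
/-- separation of the points with multiplicities -/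
lemma exists_local_lift (P : Finset (PP k 2)) (t : PP k 2 → ℕ) {n : ℕ} (hn : ∑ p ∈ P, t p ≤ n)
    {p : PP k 2} (hp : p ∈ P) (c : De (t p) → k) :
    ∃ A : MvPolynomial (Fin 3) k, A.IsHomogeneous n ∧ loc (t p) ((chart p).φ A) = c ∧
      ∀ q ∈ P, q ≠ p → A ∈ mI q.rep ^ (t q) := by
  -- separating lines
  have hl : ∀ q : PP k 2, ∃ h : PP k 2, q ≠ p → (OnH h q ∧ ¬ OnH h p) := by
    intro q
    by_cases hq : q = p
    · exact ⟨p, fun h => absurd hq h⟩
    · obtain ⟨h, h1⟩ := exists_OnH_not hq
      exact ⟨h, fun _ => h1⟩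
  choose h hh using hl
  set E : MvPolynomial (Fin 3) k := ∏ q ∈ P.erase p, lin (h q) ^ (t q) with hE
  have hEh : E.IsHomogeneous (∑ q ∈ P.erase p, t q) := by
    rw [hE]
    have := IsHomogeneous.prod (P.erase p) (fun q => lin (h q) ^ (t q)) (fun q => 1 * t q)
      (fun q _ => (lin_homog (h q)).pow (t q))
    simpa using this
  have hE0 : eval p.rep E ≠ 0 := by
    rw [hE, map_prod]
    apply Finset.prod_ne_zero_iff.2
    intro q hq
    rw [map_pow]
    apply pow_ne_zero
    intro h0
    exact (hh q (Finset.ne_of_mem_erase hq)).2 ((eval_lin _ _).1 h0)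
  have hEm : ∀ q ∈ P, q ≠ p → E ∈ mI q.rep ^ (t q) := by
    intro q hq hqp
    rw [hE, ← Finset.mul_prod_erase _ _ (Finset.mem_erase.2 ⟨hqp, hq⟩)]
    apply Ideal.mul_mem_right
    apply Ideal.pow_mem_pow
    rw [mI, RingHom.mem_ker]
    exact (eval_lin _ _).2 (hh q hqp).1
  set φ := (chart p).φ with hφ
  have hu : coeff 0 (φ E) ≠ 0 := by
    rw [hφ, (chart p).coeff_zero]; exact hE0
  obtain ⟨w, hw⟩ := exists_inv_mod (t p) (φ E) hu
  have hsum : ∑ q ∈ P.erase p, t q + t p = ∑ q ∈ P, t q := Finset.sum_erase_add _ _ hp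
  obtain ⟨A1, hA1, hA1'⟩ := (chart p).lift (t := t p) (n := n - ∑ q ∈ P.erase p, t q) (by omega)
    (loc (t p) (w * unloc (t p) c))
  refine ⟨A1 * E, ?_, ?_, ?_⟩
  · have := hA1.mul hEh
    convert this using 1
    omega
  · rw [← hφ] at hA1'
    rw [show φ (A1 * E) = φ A1 * φ E from map_mul φ A1 E]
    -- φ A1 ≡ w * unloc c
    have h1 : (φ A1 - w * unloc (t p) c) ∈ idealOfVars (Fin 2) k ^ (t p) := by
      rw [← loc_eq_zero_iff, map_sub, hA1', loc_unloc, sub_self]
    have h2 : φ A1 * φ E - unloc (t p) c ∈ idealOfVars (Fin 2) k ^ (t p) := by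
      have e : φ A1 * φ E - unloc (t p) c = (φ A1 - w * unloc (t p) c) * φ E +
          unloc (t p) c * (w * φ E - 1) := by ring
      rw [e]
      exact add_mem (Ideal.mul_mem_right _ _ h1) (Ideal.mul_mem_left _ _ hw)
    rw [← loc_eq_zero_iff, map_sub, loc_unloc, sub_eq_zero] at h2
    exact h2
  · intro q hq hqp
    exact Ideal.mul_mem_left _ _ (hEm q hq hqp)

open Classical in
/-- all local coefficients -/
noncomputable def Phi (P : Finset (PP k 2)) (t : PP k 2 → ℕ) :
    MvPolynomial (Fin 3) k →ₗ[k] ((Σ p : P, De (t p)) → k) :=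
  LinearMap.pi (fun x => (LinearMap.proj x.2).comp ((loc (t x.1)).comp (chart x.1.1).φ.toLinearMap))

lemma Phi_apply (P : Finset (PP k 2)) (t : PP k 2 → ℕ) (A : MvPolynomial (Fin 3) k)
    (x : Σ p : P, De (t p)) : Phi P t A x = loc (t x.1) ((chart x.1.1).φ A) x.2 := rfl

lemma Phi_eq_zero_iff (P : Finset (PP k 2)) (t : PP k 2 → ℕ) (A : MvPolynomial (Fin 3) k) :
    Phi P t A = 0 ↔ ∀ p ∈ P, (chart p).φ A ∈ idealOfVars (Fin 2) k ^ (t p) := by
  constructor
  · intro h p hp
    rw [← loc_eq_zero_iff]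
    ext x
    have := congrFun h ⟨⟨p, hp⟩, x⟩
    rw [Phi_apply] at this
    exact this
  · intro h
    ext ⟨⟨p, hp⟩, x⟩
    rw [Phi_apply]
    have := (loc_eq_zero_iff _ _).2 (h p hp)
    simp only [this]
    rfl

lemma Phi_surj (P : Finset (PP k 2)) (t : PP k 2 → ℕ) {n : ℕ} (hn : ∑ p ∈ P, t p ≤ n)
    (c : (Σ p : P, De (t p)) → k) :
    ∃ A : MvPolynomial (Fin 3) k, A.IsHomogeneous n ∧ Phi P t A = c := by
  have h1 : ∀ p : P, ∃ A : MvPolynomial (Fin 3) k, A.IsHomogeneous n ∧
      loc (t p) ((chart p.1).φ A) = (fun x => c ⟨p, x⟩) ∧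
      ∀ q ∈ P, q ≠ p.1 → A ∈ mI q.rep ^ (t q) := fun p =>
    exists_local_lift P t hn p.2 (fun x => c ⟨p, x⟩)
  choose A hA1 hA2 hA3 using h1
  refine ⟨∑ p : P, A p, IsHomogeneous.sum _ _ _ (fun p _ => hA1 p), ?_⟩
  ext ⟨p, x⟩
  rw [Phi_apply]
  simp only [map_sum]
  rw [Finset.sum_eq_single p]
  · rw [hA2]
  · intro q _ hqp
    apply (loc_eq_zero_iff _ _).2
    apply Chart.mem_pow
    apply hA3 q p.1 p.2
    intro h
    exact hqp (Subtype.ext h).symm
  · intro h
    exact absurd (Finset.mem_univ _) h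

lemma finrank_target (P : Finset (PP k 2)) (t : PP k 2 → ℕ) :
    2 * Module.finrank k ((Σ p : P, De (t p)) → k) = ∑ p ∈ P, t p * (t p + 1) := by
  rw [Module.finrank_fintype_fun_eq_card, Fintype.card_sigma, Finset.mul_sum]
  simp only [card_De]
  exact Finset.sum_coe_sort P (fun p => t p * (t p + 1))

instance finite_forms (n : ℕ) : Module.Finite k (homogeneousSubmodule (Fin 3) k n) := by
  apply Module.Finite.of_fg
  exact homogeneousSubmodule_fg _ _ n

lemma finrank_ker_comp_le {V V₂ V₃ : Type*} [AddCommGroup V] [Module k V] [AddCommGroup V₂]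
    [Module k V₂] [AddCommGroup V₃] [Module k V₃] [FiniteDimensional k V] [FiniteDimensional k V₂]
    (f : V →ₗ[k] V₂) (g : V₂ →ₗ[k] V₃) :
    Module.finrank k (LinearMap.ker (g.comp f)) ≤
      Module.finrank k (LinearMap.ker f) + Module.finrank k (LinearMap.ker g) := by
  let Q : LinearMap.ker (g.comp f) →ₗ[k] LinearMap.ker g :=
    LinearMap.codRestrict _ (f.comp (LinearMap.ker (g.comp f)).subtype) (fun x => x.2)
  have e1 := LinearMap.finrank_range_add_finrank_ker Q
  have e2 : Module.finrank k (LinearMap.range Q) ≤ Module.finrank k (LinearMap.ker g) :=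
    Submodule.finrank_le _
  have e3 : Module.finrank k (LinearMap.ker Q) ≤ Module.finrank k (LinearMap.ker f) := by
    let J : LinearMap.ker Q →ₗ[k] LinearMap.ker f :=
      LinearMap.codRestrict _ ((LinearMap.ker (g.comp f)).subtype.comp (LinearMap.ker Q).subtype) (by
        intro x
        have := x.2
        rw [LinearMap.mem_ker] at this ⊢
        exact congrArg Subtype.val this)
    apply LinearMap.finrank_le_finrank_of_injective (f := J)
    intro x y hxy
    apply Subtype.ext
    apply Subtype.ext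
    have h1 : (J x).1 = (J y).1 := by rw [hxy]
    exact h1
  omega

/-- Bezout's inequality with multiplicities -/
theorem bezout {F G : MvPolynomial (Fin 3) k} {a b : ℕ} (hF : F.IsHomogeneous a)
    (hG : G.IsHomogeneous b) (hF0 : F ≠ 0) (hG0 : G ≠ 0) (hrel : IsRelPrime F G)
    (P : Finset (PP k 2)) (r s : PP k 2 → ℕ) (hr : ∀ p ∈ P, F ∈ mI p.rep ^ (r p))
    (hs : ∀ p ∈ P, G ∈ mI p.rep ^ (s p)) : ∑ p ∈ P, r p * s p ≤ a * b := by
  classical
  set t : PP k 2 → ℕ := fun p => r p + s p with ht
  set N : ℕ := ∑ p ∈ P, t p with hN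
  let R : ℕ → Submodule k (MvPolynomial (Fin 3) k) := fun n => homogeneousSubmodule (Fin 3) k n
  -- the space of pairs
  let V := (R (N + b)) × (R (N + a))
  -- multiplication map
  let M : V →ₗ[k] MvPolynomial (Fin 3) k :=
    LinearMap.coprod ((LinearMap.mulRight k F).comp (R (N + b)).subtype)
      ((LinearMap.mulRight k G).comp (R (N + a)).subtype)
  have hM : ∀ x : V, M x = x.1.1 * F + x.2.1 * G := fun x => rfl
  let Rn := R (N + a + b)
  let M' : V →ₗ[k] Rn := LinearMap.codRestrict Rn M (by
    intro x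
    rw [hM]
    apply Submodule.add_mem
    · have h1 : (x.1.1).IsHomogeneous (N + b) := x.1.2
      have h2 := h1.mul hF
      show (x.1.1 * F).IsHomogeneous (N + a + b)
      convert h2 using 1
      omega
    · have h1 : (x.2.1).IsHomogeneous (N + a) := x.2.2
      have h2 := h1.mul hG
      show (x.2.1 * G).IsHomogeneous (N + a + b)
      convert h2 using 1)
  have hM' : ∀ x : V, (M' x : MvPolynomial (Fin 3) k) = x.1.1 * F + x.2.1 * G := fun x => hM x
  -- the local map
  let Φ : Rn →ₗ[k] ((Σ p : P, De (t p)) → k) := (Phi P t).comp Rn.subtype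
  have hΦs : Function.Surjective Φ := by
    intro c
    obtain ⟨A, hA, hA'⟩ := Phi_surj P t (n := N + a + b) (by omega) c
    exact ⟨⟨A, hA⟩, hA'⟩
  let Λ : V →ₗ[k] (((Σ p : P, De (s p)) → k) × ((Σ p : P, De (r p)) → k)) :=
    LinearMap.prodMap ((Phi P s).comp (R (N + b)).subtype) ((Phi P r).comp (R (N + a)).subtype)
  let Ψ : V →ₗ[k] ((Σ p : P, De (t p)) → k) := Φ.comp M'
  -- ker Λ ≤ ker Ψ
  have hker : LinearMap.ker Λ ≤ LinearMap.ker Ψ := by
    intro x hx
    rw [LinearMap.mem_ker] at hx ⊢
    have h1 : Phi P s x.1.1 = 0 := congrArg Prod.fst hx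
    have h2 : Phi P r x.2.1 = 0 := congrArg Prod.snd hx
    rw [Phi_eq_zero_iff] at h1 h2
    have h3 : Phi P t (x.1.1 * F + x.2.1 * G) = 0 := by
      rw [Phi_eq_zero_iff]
      intro p hp
      rw [map_add, map_mul, map_mul]
      apply add_mem
      · have e1 := h1 p hp
        have e2 := (chart p).mem_pow (hr p hp)
        have e3 := Ideal.mul_mem_mul e1 e2
        rw [← pow_add, add_comm] at e3
        exact e3
      · have e1 := h2 p hp
        have e2 := (chart p).mem_pow (hs p hp)
        have e3 := Ideal.mul_mem_mul e1 e2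
        rw [← pow_add] at e3
        exact e3
    show Φ (M' x) = 0
    have h4 : Φ (M' x) = Phi P t (M' x : MvPolynomial (Fin 3) k) := rfl
    rw [h4, hM']
    exact h3
  -- kernel of M'
  let K : R N →ₗ[k] V := LinearMap.prod
    (LinearMap.codRestrict (R (N + b)) ((LinearMap.mulRight k G).comp (R N).subtype) (by
      intro x
      have h1 : (x.1).IsHomogeneous N := x.2
      exact h1.mul hG))
    (LinearMap.codRestrict (R (N + a)) (-((LinearMap.mulRight k F).comp (R N).subtype)) (by
      intro x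
      have h1 : (x.1).IsHomogeneous N := x.2
      exact (h1.mul hF).neg))
  have hkerM : LinearMap.ker M' ≤ LinearMap.range K := by
    intro x hx
    rw [LinearMap.mem_ker] at hx
    have h1 : x.1.1 * F + x.2.1 * G = 0 := by
      rw [← hM', hx]; rfl
    have h2 : G ∣ x.1.1 * F := by
      have : x.1.1 * F = -x.2.1 * G := by linear_combination h1
      rw [this]; exact Dvd.intro_left _ rfl
    have h3 : G ∣ x.1.1 := (hrel.symm).dvd_of_dvd_mul_right h2
    obtain ⟨H, hH⟩ := h3
    have h4 : x.2.1 = - (H * F) := by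
      have e1 : G * (H * F + x.2.1) = 0 := by
        rw [hH] at h1
        linear_combination h1
      rcases mul_eq_zero.1 e1 with h | h
      · exact absurd h hG0
      · linear_combination h
    -- H is homogeneous of degree N
    have h5 : H.IsHomogeneous N := by
      by_cases hH0 : H = 0
      · rw [hH0]; exact isHomogeneous_zero _ _ _
      · have hx1 : (x.1.1).IsHomogeneous (N + b) := x.1.2
        have hx0 : x.1.1 ≠ 0 := by
          rw [hH]; exact mul_ne_zero hG0 hH0
        have hHd := homog_of_dvd hx1 hx0 (Dvd.intro_left G hH.symm)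
        have h6 := hG.mul hHd
        rw [← hH] at h6
        have h7 := h6.inj_right hx1 hx0
        have h8 : H.totalDegree = N := by omega
        rwa [h8] at hHd
    refine ⟨⟨H, h5⟩, ?_⟩
    apply Prod.ext
    · apply Subtype.ext
      show H * G = x.1.1
      rw [hH, mul_comm]
    · apply Subtype.ext
      show -(H * F) = x.2.1
      rw [h4]
  -- dimension count
  have d1 : Module.finrank k (LinearMap.ker M') ≤ (N + 2).choose 2 := by
    calc Module.finrank k (LinearMap.ker M') ≤ Module.finrank k (LinearMap.range K) :=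
          Submodule.finrank_mono hkerM
      _ ≤ Module.finrank k (R N) := LinearMap.finrank_range_le K
      _ = _ := finrank_forms N
  have d2 : Module.finrank k (LinearMap.range Ψ) ≤
      Module.finrank k ((Σ p : P, De (s p)) → k) + Module.finrank k ((Σ p : P, De (r p)) → k) := by
    have e1 := LinearMap.finrank_range_add_finrank_ker Ψ
    have e2 := LinearMap.finrank_range_add_finrank_ker Λ
    have e3 := Submodule.finrank_mono hker
    have e4 : Module.finrank k (LinearMap.range Λ) ≤ _ := Submodule.finrank_le (LinearMap.range Λ)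
    rw [Module.finrank_prod] at e4
    omega
  have d3 : Module.finrank k (LinearMap.ker Ψ) ≤
      Module.finrank k (LinearMap.ker M') + Module.finrank k (LinearMap.ker Φ) :=
    finrank_ker_comp_le M' Φ
  have d4 : Module.finrank k (LinearMap.ker Φ) + Module.finrank k ((Σ p : P, De (t p)) → k) =
      (N + a + b + 2).choose 2 := by
    have e1 := LinearMap.finrank_range_add_finrank_ker Φ
    rw [LinearMap.range_eq_top.2 hΦs, finrank_top] at e1
    have e2 : Module.finrank k Rn = (N + a + b + 2).choose 2 := finrank_forms _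
    omega
  have d5 : Module.finrank k (LinearMap.range Ψ) + Module.finrank k (LinearMap.ker Ψ) =
      (N + b + 2).choose 2 + (N + a + 2).choose 2 := by
    have e1 := LinearMap.finrank_range_add_finrank_ker Ψ
    have e2 : Module.finrank k V = (N + b + 2).choose 2 + (N + a + 2).choose 2 := by
      show Module.finrank k ((R (N + b)) × (R (N + a))) = _
      rw [Module.finrank_prod, finrank_forms, finrank_forms]
    omega
  have f1 := finrank_target P t
  have f2 := finrank_target P r
  have f3 := finrank_target P s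
  have ch : ∀ m : ℕ, 2 * (m + 2).choose 2 = (m + 2) * (m + 1) := by
    intro m
    rw [Nat.choose_two_right]
    have : 2 ∣ (m + 2) * (m + 2 - 1) := (Nat.even_mul_pred_self (m + 2)).two_dvd
    rw [Nat.mul_div_cancel' this]
    rfl
  have c1 := ch (N + a + b)
  have c2 := ch (N + a)
  have c3 := ch (N + b)
  have c4 := ch N
  have hsum : ∑ p ∈ P, t p * (t p + 1) = ∑ p ∈ P, r p * (r p + 1) + ∑ p ∈ P, s p * (s p + 1) +
      2 * ∑ p ∈ P, r p * s p := by
    rw [Finset.mul_sum, ← Finset.sum_add_distrib, ← Finset.sum_add_distrib]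
    apply Finset.sum_congr rfl
    intro p _
    simp only [ht]
    ring
  have key : 2 * (N + b + 2).choose 2 + 2 * (N + a + 2).choose 2 +
      2 * Module.finrank k ((Σ p : P, De (t p)) → k) ≤
      2 * Module.finrank k ((Σ p : P, De (s p)) → k) + 2 * Module.finrank k ((Σ p : P, De (r p)) → k)
      + 2 * (N + 2).choose 2 + 2 * (N + a + b + 2).choose 2 := by omega
  rw [c1, c2, c3, c4, f1, f2, f3, hsum] at key
  nlinarith

end Pool.Agent.Chud
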