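import Mathlib
import Pool.Agent.Chud.Defs
import Pool.Agent.Chud.Tools

set_option autoImplicit false

namespace Pool.Agent.Chud

open MvPolynomial

/-! ### tools -/

variable {k : Type*} [Field k]

-- TARGET
theorem exists_zero_not [IsAlgClosed k] {σ : Type*} [Finite σ] {F H : MvPolynomial σ k}
    (hF : Irreducible F) (hH : ¬ F ∣ H) : ∃ v : σ → k, eval v F = 0 ∧ eval v H ≠ 0 := by
  by_contra hcon
  push Not at hcon
  apply hH
  have hprime : Prime F := hF.prime
  have hP : (Ideal.span ({F} : Set (MvPolynomial σ k))).IsPrime :=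
    (Ideal.span_singleton_prime hprime.ne_zero).2 hprime
  have h1 := MvPolynomial.vanishingIdeal_zeroLocus_eq_radical (K := k)
    (Ideal.span ({F} : Set (MvPolynomial σ k)))
  rw [hP.radical] at h1
  have h2 : H ∈ Ideal.span ({F} : Set (MvPolynomial σ k)) := by
    rw [← h1, MvPolynomial.mem_vanishingIdeal_iff]
    intro v hv
    rw [MvPolynomial.mem_zeroLocus_iff] at hv
    have hv2 := hv F (Ideal.subset_span rfl)
    have := hcon v (by simpa [MvPolynomial.aeval_def, MvPolynomial.eval₂_eq'] using hv2)
    simpa [MvPolynomial.aeval_def] using this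
  exact Ideal.mem_span_singleton.1 h2

end Pool.Agent.Chud
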