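import Mathlib
import Pool.Agent.Chud.Defs
import Pool.Agent.Chud.Tools
import Pool.Agent.Chud.PA
import Pool.Agent.Chud.PE1
import Pool.Agent.Chud.PE2

set_option autoImplicit false

namespace Pool.Agent.Chud

open MvPolynomial

/-! ### tools -/

variable {k : Type*} [Field k]

-- TARGET
/-- multiplicity one of a line -/
theorem mu_lin {N : ℕ} (h p : PP k N) : (OnH h p → mu p.rep (lin h) = 1) ∧
    (¬ OnH h p → mu p.rep (lin h) = 0) := by
  constructor
  · intro hp
    have h1 : 0 < mu p.rep (lin h) := (mu_pos_iff p.rep (lin_ne_zero h)).2 ((eval_lin h p).2 hp)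
    have h2 : mu p.rep (lin h) ≤ (lin h).totalDegree := mu_le_totalDegree p.rep (lin_ne_zero h)
    rw [(lin_homog h).totalDegree (lin_ne_zero h)] at h2
    omega
  · intro hp
    by_contra hcon
    exact hp ((eval_lin h p).1 ((mu_pos_iff p.rep (lin_ne_zero h)).1 (Nat.pos_of_ne_zero hcon)))

-- TARGET
/-- a vector which is not zero represents a point, and evaluation of a form at a multiple -/
theorem eval_rep_eq_zero_iff {N : ℕ} {F : MvPolynomial (Fin (N + 1)) k} {d : ℕ} (hF : F.IsHomogeneous d)
    (v : Fin (N + 1) → k) (hv : v ≠ 0) :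
    eval (Projectivization.mk k v hv).rep F = 0 ↔ eval v F = 0 := by
  obtain ⟨a, ha⟩ := Projectivization.exists_smul_eq_mk_rep k v hv
  have key : eval (Projectivization.mk k v hv).rep F = (a : k) ^ d * eval v F := by
    rw [← ha, eval_eq', eval_eq', Finset.mul_sum]
    refine Finset.sum_congr rfl fun m hm => ?_
    have hdeg : ∑ i, m i = d := by
      have h1 := hF (mem_support_iff.1 hm)
      rw [Finsupp.weight_apply, Finsupp.sum_fintype _ _ (by simp)] at h1
      simpa using h1
    have h2 : ∏ i, (a • v) i ^ m i = (a : k) ^ d * ∏ i, v i ^ m i := by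
      rw [← hdeg, ← Finset.prod_pow_eq_pow_sum, ← Finset.prod_mul_distrib]
      refine Finset.prod_congr rfl fun i _ => ?_
      rw [Pi.smul_apply, Units.smul_def, smul_eq_mul, mul_pow]
    rw [h2]
    ring
  rw [key]
  constructor
  · intro h0
    rcases mul_eq_zero.1 h0 with h | h
    · exact absurd h (pow_ne_zero _ a.ne_zero)
    · exact h
  · intro h0
    rw [h0, mul_zero]

end Pool.Agent.Chud
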