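import Mathlib
import Pool.Agent.Chud.Defs
import Pool.Agent.Chud.Tools
import Pool.Agent.Chud.PA
import Pool.Agent.Chud.PB
import Pool.Agent.Chud.PB2
import Pool.Agent.Chud.PC
import Pool.Agent.Chud.PD1
import Pool.Agent.Chud.PD2
import Pool.Agent.Chud.PE1
import Pool.Agent.Chud.PE2
import Pool.Agent.Chud.PE3
import Pool.Agent.Chud.PBZ

set_option autoImplicit false

namespace Pool.Agent.Chud

open MvPolynomial

/-! ### tools -/

variable {k : Type*} [Field k]

-- TARGET
theorem exists_W {S : Finset (PP k 2)} {α : ℕ} (hα : 1 ≤ α)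
    (hS : ∀ F : MvPolynomial (Fin 3) k, F.IsHomogeneous (α - 1) → (∀ w ∈ S, eval w.rep F = 0) → F = 0) :
    ∃ W ⊆ S, ∃ f, WData W α f := by
  classical
  set P : Finset (PP k 2) → Prop := fun W =>
    ∀ F : MvPolynomial (Fin 3) k, F.IsHomogeneous (α - 1) → (∀ w ∈ W, eval w.rep F = 0) → F = 0
    with hP
  obtain ⟨W, hW, hmin⟩ := Finset.exists_min_image (S.powerset.filter P) Finset.card
    ⟨S, by simp only [Finset.mem_filter, Finset.mem_powerset]; exact ⟨Finset.Subset.refl S, hS⟩⟩
  simp only [Finset.mem_filter, Finset.mem_powerset] at hW hmin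
  obtain ⟨hWS, hPW⟩ := hW
  have hex : ∀ w : PP k 2, ∃ F : MvPolynomial (Fin 3) k, w ∈ W → (F.IsHomogeneous (α - 1) ∧
      eval w.rep F = 1 ∧ ∀ w' ∈ W, w ≠ w' → eval w'.rep F = 0) := by
    intro w
    by_cases hw : w ∈ W
    · have hnot : ¬ P (W.erase w) := by
        intro hp
        have h1 := hmin (W.erase w) ⟨(Finset.erase_subset w W).trans hWS, hp⟩
        have h2 := Finset.card_erase_lt_of_mem hw
        omega
      rw [hP] at hnot
      push Not at hnot
      obtain ⟨F, hFh, hF0, hFne⟩ := hnot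
      have hev : eval w.rep F ≠ 0 := by
        intro h0
        apply hFne
        apply hPW F hFh
        intro w' hw'
        by_cases hww : w' = w
        · rw [hww]; exact h0
        · exact hF0 w' (Finset.mem_erase.2 ⟨hww, hw'⟩)
      refine ⟨C (eval w.rep F)⁻¹ * F, fun _ => ⟨?_, ?_, ?_⟩⟩
      · have := (isHomogeneous_C (Fin 3) (eval w.rep F)⁻¹).mul hFh
        rwa [zero_add] at this
      · rw [map_mul, eval_C, inv_mul_cancel₀ hev]
      · intro w' hw' hne
        rw [map_mul, hF0 w' (Finset.mem_erase.2 ⟨hne.symm, hw'⟩), mul_zero]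
    · exact ⟨0, fun h => absurd h hw⟩
  choose f hf using hex
  refine ⟨W, hWS, f, ⟨hα, ?_, fun w hw => (hf w hw).1, fun w hw => (hf w hw).2.1,
    fun w hw w' hw' hne => (hf w hw).2.2 w' hw' hne, hPW⟩⟩
  let ev : homogeneousSubmodule (Fin 3) k (α - 1) →ₗ[k] (W → k) :=
    { toFun := fun F w => eval w.1.rep F.1
      map_add' := by
        intro F G
        funext w
        simp
      map_smul' := by
        intro c F
        funext w
        simp [smul_eval] }
  have hinj : Function.Injective ev := by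
    rw [← LinearMap.ker_eq_bot, LinearMap.ker_eq_bot']
    intro F hF
    have := hPW F.1 ((mem_homogeneousSubmodule _ _).1 F.2) (fun w hw => congrFun hF ⟨w, hw⟩)
    exact Subtype.ext this
  have hsurj : Function.Surjective ev := by
    intro g
    refine ⟨⟨∑ w : W, C (g w) * f w.1, ?_⟩, ?_⟩
    · rw [mem_homogeneousSubmodule]
      apply IsHomogeneous.sum
      intro w _
      have := (isHomogeneous_C (Fin 3) (g w)).mul (hf w.1 w.2).1
      rwa [zero_add] at this
    · funext w'
      change eval w'.1.rep (∑ w : W, C (g w) * f w.1) = g w'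
      rw [map_sum, Finset.sum_eq_single w']
      · rw [map_mul, eval_C, (hf w'.1 w'.2).2.1, mul_one]
      · intro w _ hne
        rw [map_mul, (hf w.1 w.2).2.2 w'.1 w'.2 (fun h => hne (Subtype.ext h)), mul_zero]
      · intro h
        exact absurd (Finset.mem_univ _) h
  have hfr := LinearEquiv.finrank_eq (LinearEquiv.ofBijective ev ⟨hinj, hsurj⟩)
  rw [finrank_forms, Module.finrank_fintype_fun_eq_card, Fintype.card_coe] at hfr
  rw [← hfr]
  congr 1
  omega

end Pool.Agent.Chud
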