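import Mathlib
import Pool.Agent.Chud.Defs
import Pool.Agent.Chud.Tools
import Pool.Agent.Chud.PF1

set_option autoImplicit false

namespace Pool.Agent.Chud

open MvPolynomial

/-! ### tools -/

variable {k : Type*} [Field k]

-- TARGET
theorem exists_G {W : Finset (PP k 2)} {α : ℕ} {f : PP k 2 → MvPolynomial (Fin 3) k}
    (hW : WData W α f) {p : PP k 2} (hp : p ∉ W) :
    ∃ G : MvPolynomial (Fin 3) k, G.IsHomogeneous α ∧ (∀ w ∈ W, eval w.rep G = 0) ∧ eval p.rep G ≠ 0 := by
  classical
  obtain ⟨w, hw, hpw⟩ : ∃ w ∈ W, eval p.rep (f w) ≠ 0 := by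
    by_contra hcon
    push Not at hcon
    obtain ⟨h, hh⟩ := exists_not_OnH p
    set F : MvPolynomial (Fin 3) k := (lin h) ^ (α - 1) with hF
    have hFh : F.IsHomogeneous (α - 1) := by
      have := (lin_homog h).pow (α - 1)
      rwa [one_mul] at this
    have hsum : (∑ w ∈ W, C (eval w.rep F) * f w).IsHomogeneous (α - 1) := by
      apply IsHomogeneous.sum
      intro w hw
      have := (isHomogeneous_C (Fin 3) (eval w.rep F)).mul (hW.homog w hw)
      rwa [zero_add] at this
    have h0 : F - ∑ w ∈ W, C (eval w.rep F) * f w = 0 := by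
      apply hW.inj _ (hFh.sub hsum)
      intro w' hw'
      rw [map_sub, map_sum, Finset.sum_eq_single w']
      · rw [map_mul, eval_C, hW.one w' hw', mul_one, sub_self]
      · intro w hw hne
        rw [map_mul, hW.zero w hw w' hw' hne, mul_zero]
      · intro h
        exact absurd hw' h
    have h1 : eval p.rep F = 0 := by
      rw [sub_eq_zero.1 h0, map_sum]
      apply Finset.sum_eq_zero
      intro w hw
      rw [map_mul, hcon w hw, mul_zero]
    rw [hF, map_pow] at h1
    exact hh ((eval_lin h p).1 (eq_zero_of_pow_eq_zero h1))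
  have hne : w ≠ p := fun h => hp (h ▸ hw)
  obtain ⟨h, h1, h2⟩ := exists_OnH_not hne
  refine ⟨lin h * f w, ?_, ?_, ?_⟩
  · have := (lin_homog h).mul (hW.homog w hw)
    have hα := hW.αpos
    rwa [show 1 + (α - 1) = α by omega] at this
  · intro w' hw'
    rw [map_mul]
    by_cases hww : w = w'
    · subst hww
      rw [(eval_lin h w).2 h1, zero_mul]
    · rw [hW.zero w hw w' hw' hww, mul_zero]
  · rw [map_mul]
    exact mul_ne_zero (fun h0 => h2 ((eval_lin h p).1 h0)) hpw

end Pool.Agent.Chud
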