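import Mathlib
import Pool.Agent.Chud.Defs
import Pool.Agent.Chud.Tools
import Pool.Agent.Chud.PF2

set_option autoImplicit false

namespace Pool.Agent.Chud

open MvPolynomial

/-! ### tools -/

variable {k : Type*} [Field k]

-- TARGET
theorem two_mul_choose_two_aux (n : ℕ) : 2 * (n + 1).choose 2 = (n + 1) * n := by
  induction n with
  | zero => simp
  | succ n ih =>
    rw [Nat.choose_succ_succ (n + 1) 1, mul_add, ih, Nat.choose_one_right]
    ring

/-- the points of `W` on a curve of degree `δ` -/
theorem card_on_curve {W : Finset (PP k 2)} {α : ℕ} {f : PP k 2 → MvPolynomial (Fin 3) k}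
    (hW : WData W α f) {F : MvPolynomial (Fin 3) k} {δ : ℕ} (hF : F.IsHomogeneous δ) (hF0 : F ≠ 0)
    (hδ : δ ≤ α) [DecidablePred fun w : PP k 2 => eval w.rep F = 0] :
    2 * (W.filter (fun w => eval w.rep F = 0)).card + δ * (δ - 1) ≤ 2 * (α * δ) := by
  classical
  have hsum : (W.filter (fun w => eval w.rep F = 0)).card +
      (W.filter (fun w => ¬ eval w.rep F = 0)).card = W.card :=
    Finset.card_filter_add_card_filter_not _
  have key : δ < α → (α - 1 - δ + 2).choose 2 ≤
      (W.filter (fun w => ¬ eval w.rep F = 0)).card := by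
    intro hlt
    obtain ⟨W', hW'⟩ : ∃ W', W' = W.filter (fun w => ¬ eval w.rep F = 0) := ⟨_, rfl⟩
    rw [← hW']
    let φ : homogeneousSubmodule (Fin 3) k (α - 1 - δ) →ₗ[k] (W' → k) :=
      { toFun := fun A w => eval w.1.rep (A.1 * F)
        map_add' := by
          intro A B
          funext w
          simp [add_mul]
        map_smul' := by
          intro c A
          funext w
          simp [mul_assoc] }
    have hinj : Function.Injective φ := by
      rw [injective_iff_map_eq_zero]
      intro A hA
      have h1 : (A.1 * F).IsHomogeneous (α - 1) := by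
        have := ((mem_homogeneousSubmodule _ _).1 A.2).mul hF
        rwa [show α - 1 - δ + δ = α - 1 by omega] at this
      have h2 : A.1 * F = 0 := hW.inj _ h1 (fun w hw => by
        by_cases h : eval w.rep F = 0
        · rw [map_mul, h, mul_zero]
        · exact congrFun hA ⟨w, by rw [hW']; exact Finset.mem_filter.2 ⟨hw, h⟩⟩)
      exact Subtype.ext ((mul_eq_zero.1 h2).resolve_right hF0)
    have := LinearMap.finrank_le_finrank_of_injective hinj
    rw [finrank_forms, Module.finrank_fintype_fun_eq_card, Fintype.card_coe] at this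
    exact this
  have hc := two_mul_choose_two_aux α
  rw [hW.card] at hsum
  rcases Nat.lt_or_ge δ α with hlt | hge
  · have h1 := key hlt
    obtain ⟨t, rfl⟩ : ∃ t, α = δ + 1 + t := ⟨α - δ - 1, by omega⟩
    rw [show δ + 1 + t - 1 - δ + 2 = (t + 1) + 1 by omega] at h1
    have h2 := two_mul_choose_two_aux (t + 1)
    have h3 : 2 * (W.filter (fun w => eval w.rep F = 0)).card + (t + 1 + 1) * (t + 1) ≤
        (δ + 1 + t + 1) * (δ + 1 + t) := by omega
    rcases δ with _ | δ
    · simp only [Nat.zero_mul, Nat.mul_zero, Nat.add_zero, Nat.zero_add] at h3 ⊢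
      nlinarith
    · simp only [Nat.add_sub_cancel]
      nlinarith
  · obtain rfl : δ = α := le_antisymm hδ hge
    have h3 : 2 * (W.filter (fun w => eval w.rep F = 0)).card ≤ (δ + 1) * δ := by omega
    rcases δ with _ | δ
    · simp only [Nat.zero_mul, Nat.mul_zero, Nat.add_zero] at h3 ⊢
      omega
    · simp only [Nat.add_sub_cancel]
      nlinarith

end Pool.Agent.Chud
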