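import Mathlib
import Pool.Agent.Chud.Defs
import Pool.Agent.Chud.Tools
import Pool.Agent.Chud.PF3

set_option autoImplicit false

namespace Pool.Agent.Chud

open MvPolynomial

/-! ### tools -/

variable {k : Type*} [Field k]

theorem aux_exists_ne (w : PP k 2) : ∃ q : PP k 2, q ≠ w := by
  classical
  by_contra hcon
  push Not at hcon
  let e0 : Fin (2 + 1) → k := Pi.single 0 1
  let e1 : Fin (2 + 1) → k := Pi.single 1 1
  have h0 : e0 ≠ 0 := by
    intro h
    have := congrFun h 0
    simp [e0] at this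
  have h1 : e1 ≠ 0 := by
    intro h
    have := congrFun h 1
    simp [e1] at this
  have h : Projectivization.mk k e0 h0 = Projectivization.mk k e1 h1 :=
    (hcon _).trans (hcon _).symm
  rw [Projectivization.mk_eq_mk_iff'] at h
  obtain ⟨a, ha⟩ := h
  have := congrFun ha 0
  simp [e0, e1] at this

theorem aux_line {F : MvPolynomial (Fin 3) k} (hirr : Irreducible F) (w : PP k 2) :
    ∃ h : PP k 2, OnH h w ∧ ¬ F ∣ lin h := by
  obtain ⟨q, hq⟩ := aux_exists_ne w
  obtain ⟨h1, h1w, h1q⟩ := exists_OnH_not (N := 2) (p := w) (q := q) (Ne.symm hq)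
  obtain ⟨g, hg⟩ := exists_not_OnH (N := 2) w
  have hne : h1 ≠ g := by
    intro h
    rw [h] at h1w
    exact hg h1w
  obtain ⟨q', ⟨hq1, hq2⟩, -⟩ := lines_meet hne
  have hq' : w ≠ q' := by
    intro h
    rw [← h] at hq2
    exact hg hq2
  obtain ⟨h2, h2w, h2q⟩ := exists_OnH_not (N := 2) hq'
  by_cases hd : F ∣ lin h1
  · refine ⟨h2, h2w, ?_⟩
    intro hd2
    have a1 : Associated F (lin h1) := hirr.associated_of_dvd (lin_irreducible h1) hd
    have a2 : Associated F (lin h2) := hirr.associated_of_dvd (lin_irreducible h2) hd2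
    have a3 : lin h1 ∣ lin h2 := (a1.symm.trans a2).dvd
    apply h2q
    rw [← eval_lin]
    obtain ⟨c, hc⟩ := a3
    rw [hc, map_mul, (eval_lin h1 q').mpr hq1, zero_mul]
  · exact ⟨h1, h1w, hd⟩

-- TARGET
/-- the deficit `α deg F - ∑ mult` is nonnegative on irreducible curves -/
theorem sum_mu_le [IsAlgClosed k] {W : Finset (PP k 2)} {α : ℕ} {f : PP k 2 → MvPolynomial (Fin 3) k}
    (hW : WData W α f) {F : MvPolynomial (Fin 3) k} {δ : ℕ} (hF : F.IsHomogeneous δ)
    (hirr : Irreducible F) : ∑ w ∈ W, mu w.rep F ≤ α * δ := by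
  classical
  choose h hh1 hh2 using fun w : PP k 2 => aux_line hirr w
  have hprime : Prime F := UniqueFactorizationMonoid.irreducible_iff_prime.mp hirr
  have hnd : ¬ F ∣ ∏ w ∈ W, lin (h w) := by
    intro hd
    obtain ⟨w, _, hw⟩ := hprime.exists_mem_finset_dvd hd
    exact hh2 w hw
  obtain ⟨v, hv1, hv2⟩ := exists_zero_not hirr hnd
  have hv3 : ∀ w ∈ W, eval v (lin (h w)) ≠ 0 := by
    intro w hw h0
    apply hv2
    rw [map_prod]
    exact Finset.prod_eq_zero hw h0
  have hWne : W.Nonempty := by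
    rw [← Finset.card_pos, hW.card]
    have := hW.αpos
    exact Nat.choose_pos (by omega)
  have hv : v ≠ 0 := by
    intro h0
    obtain ⟨w0, hw0⟩ := hWne
    apply hv3 w0 hw0
    rw [h0]
    simp [lin]
  set p : PP k 2 := Projectivization.mk k v hv with hp
  have hpW : p ∉ W := by
    intro hpW
    have h1 : eval p.rep (lin (h p)) = 0 := (eval_lin (h p) p).mpr (hh1 p)
    exact hv3 p hpW ((eval_rep_eq_zero_iff (lin_homog (h p)) v hv).mp h1)
  have hFp : eval p.rep F = 0 := (eval_rep_eq_zero_iff hF v hv).mpr hv1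
  obtain ⟨G, hG1, hG2, hG3⟩ := exists_G hW hpW
  have hG0 : G ≠ 0 := by
    intro h0
    apply hG3
    rw [h0, map_zero]
  have hFG : ¬ F ∣ G := by
    rintro ⟨c, hc⟩
    apply hG3
    rw [hc, map_mul, hFp, zero_mul]
  have hrel : IsRelPrime F G := hirr.isRelPrime_iff_not_dvd.mpr hFG
  have key := bezout hF hG1 hirr.ne_zero hG0 hrel W (fun w => mu w.rep F) (fun _ => 1)
    (fun w _ => (mem_mI_pow_iff w.rep hirr.ne_zero _).mpr le_rfl)
    (fun w hw => by rw [pow_one]; exact (RingHom.mem_ker).mpr (hG2 w hw))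
  simpa [mul_comm] using key

end Pool.Agent.Chud
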