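import Mathlib
import Pool.Agent.Chud.Defs
import Pool.Agent.Chud.Tools
import Pool.Agent.Chud.PG1

set_option autoImplicit false

namespace Pool.Agent.Chud

open MvPolynomial

/-! ### tools -/

variable {k : Type*} [Field k]

theorem pb_not_dvd {F L : MvPolynomial (Fin 3) k} {δ e : ℕ} (hF : F.IsHomogeneous δ) (hF0 : F ≠ 0)
    (hL : L.IsHomogeneous e) (hL0 : L ≠ 0) (he : e < δ) : ¬ F ∣ L := by
  rintro ⟨G, rfl⟩
  have hG0 : G ≠ 0 := right_ne_zero_of_mul hL0
  have h1 := hL.totalDegree hL0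
  have h2 := hF.totalDegree hF0
  rw [totalDegree_mul_of_isDomain hF0 hG0] at h1
  omega

theorem pb_linear (c : Fin 3 → k) : (∑ i, C (c i) * X i : MvPolynomial (Fin 3) k).IsHomogeneous 1 := by
  apply IsHomogeneous.sum
  intro i _
  have := (isHomogeneous_C (Fin 3) (c i)).mul (isHomogeneous_X k i)
  rwa [zero_add] at this

theorem pb_linear_ne (c : Fin 3 → k) {i0 : Fin 3} (hc : c i0 ≠ 0) :
    (∑ i, C (c i) * X i : MvPolynomial (Fin 3) k) ≠ 0 := by
  intro h
  have h1 := congrArg (eval (Pi.single i0 (1 : k))) h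
  rw [map_sum, map_zero] at h1
  simp only [map_mul, eval_C, eval_X, Pi.single_apply, mul_ite, mul_one, mul_zero,
    Finset.sum_ite_eq', Finset.mem_univ, if_true] at h1
  exact hc h1

theorem pb_line (w : PP k 2) : ∃ L : MvPolynomial (Fin 3) k, L.IsHomogeneous 1 ∧ L ≠ 0 ∧
    eval w.rep L = 0 := by
  by_cases h0 : w.rep 0 = 0
  · exact ⟨X 0, isHomogeneous_X k 0, X_ne_zero 0, by rw [eval_X]; exact h0⟩
  · refine ⟨∑ i, C ((![w.rep 1, - w.rep 0, 0] : Fin 3 → k) i) * X i, pb_linear _,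
      pb_linear_ne _ (i0 := 1) (by simpa using h0), ?_⟩
    rw [map_sum, Fin.sum_univ_three]
    simp only [map_mul, eval_C, eval_X, Matrix.cons_val_zero, Matrix.cons_val_one,
      Matrix.cons_val]
    ring

-- TARGET
/-- polar bound -/
theorem polar_bound [IsAlgClosed k] {W : Finset (PP k 2)} {F : MvPolynomial (Fin 3) k} {δ : ℕ}
    (hF : F.IsHomogeneous δ) (hirr : Irreducible F) (hδ : 2 ≤ δ) :
    ∑ w ∈ W, mu w.rep F * (mu w.rep F - 1) + 1 ≤ δ * (δ - 1) := by
  classical
  have hF0 : F ≠ 0 := hirr.ne_zero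
  obtain ⟨i0, hi0⟩ := exists_pderiv_ne_zero hirr
  obtain ⟨m, hm⟩ := ne_zero_iff.1 hi0
  obtain ⟨L0, hL0⟩ : ∃ L : MvPolynomial (Fin 3) k, L = ∑ i, C (coeff m (pderiv i F)) * X i :=
    ⟨_, rfl⟩
  have hL0h : L0.IsHomogeneous 1 := by rw [hL0]; exact pb_linear _
  have hL0n : L0 ≠ 0 := by rw [hL0]; exact pb_linear_ne _ hm
  have hL0e : ∀ q : Fin 3 → k, eval q L0 = coeff m (polar q F) := by
    intro q
    rw [hL0, polar, map_sum, coeff_sum]
    apply Finset.sum_congr rfl
    intro i _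
    rw [map_mul, eval_C, eval_X, coeff_C_mul, mul_comm]
  choose Lw hLw1 hLw2 hLw3 using (fun w : PP k 2 => pb_line w)
  have hprime : Prime F := hirr.prime
  have hH : ¬ F ∣ L0 * ∏ w ∈ W, Lw w := by
    intro hdvd
    rcases hprime.dvd_or_dvd hdvd with h | h
    · exact pb_not_dvd hF hF0 hL0h hL0n (by omega) h
    · obtain ⟨w, _, hw⟩ := (hprime.dvd_finsetProd_iff _).1 h
      exact pb_not_dvd hF hF0 (hLw1 w) (hLw2 w) (by omega) hw
  obtain ⟨q, hqF, hqH⟩ := exists_zero_not hirr hH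
  rw [map_mul, map_prod] at hqH
  have hqL0 : eval q L0 ≠ 0 := left_ne_zero_of_mul hqH
  have hqLw : ∀ w ∈ W, eval q (Lw w) ≠ 0 := Finset.prod_ne_zero_iff.1 (right_ne_zero_of_mul hqH)
  have hq0 : q ≠ 0 := by
    rintro rfl
    apply hqL0
    rw [hL0, map_sum]
    apply Finset.sum_eq_zero
    intro i _
    rw [map_mul, eval_X]
    simp
  obtain ⟨p, hp⟩ : ∃ p : PP k 2, p = Projectivization.mk k q hq0 := ⟨_, rfl⟩
  have hpW : p ∉ W := by
    intro h
    apply hqLw p h
    rw [← eval_rep_eq_zero_iff (hLw1 p) q hq0, ← hp]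
    exact hLw3 p
  have hG0 : polar q F ≠ 0 := by
    intro h
    apply hqL0
    rw [hL0e, h, coeff_zero]
  have hGh : (polar q F).IsHomogeneous (δ - 1) := polar_homog q hF
  have hrel : IsRelPrime F (polar q F) :=
    (hirr.isRelPrime_iff_not_dvd).2 (pb_not_dvd hF hF0 hGh hG0 (by omega))
  have hpF : F ∈ mI p.rep := by
    change eval p.rep F = 0
    rw [hp]
    exact (eval_rep_eq_zero_iff hF q hq0).2 hqF
  have hpG : polar q F ∈ mI p.rep := by
    change eval p.rep (polar q F) = 0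
    rw [hp]
    exact (eval_rep_eq_zero_iff hGh q hq0).2 (eval_polar q hF hqF)
  have hb := bezout hF hGh hF0 hG0 hrel (insert p W)
    (fun x => if x = p then 1 else mu x.rep F) (fun x => if x = p then 1 else mu x.rep F - 1)
    (by
      intro x hx
      by_cases hxp : x = p
      · simp only [hxp, if_true, pow_one]
        exact hpF
      · simp only [hxp, if_false]
        exact (mem_mI_pow_iff _ hF0 _).2 le_rfl)
    (by
      intro x hx
      by_cases hxp : x = p
      · simp only [hxp, if_true, pow_one]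
        exact hpG
      · simp only [hxp, if_false]
        rcases Nat.eq_zero_or_pos (mu x.rep F) with h | h
        · rw [h]
          simp
        · apply polar_mem
          rw [Nat.sub_add_cancel h]
          exact (mem_mI_pow_iff _ hF0 _).2 le_rfl)
  rw [Finset.sum_insert hpW] at hb
  simp only [if_true, mul_one] at hb
  have hsum : ∑ x ∈ W, (if x = p then 1 else mu x.rep F) * (if x = p then 1 else mu x.rep F - 1) =
      ∑ w ∈ W, mu w.rep F * (mu w.rep F - 1) := by
    apply Finset.sum_congr rfl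
    intro x hx
    have hxp : x ≠ p := fun h => hpW (h ▸ hx)
    rw [if_neg hxp, if_neg hxp]
  rw [hsum] at hb
  omega

end Pool.Agent.Chud
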