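import Mathlib
import Pool.Agent.Chud.Defs
import Pool.Agent.Chud.Tools
import Pool.Agent.Chud.PG2

set_option autoImplicit false

namespace Pool.Agent.Chud

open MvPolynomial

/-! ### tools -/

variable {k : Type*} [Field k]

/-- the numerical core: Cauchy-Schwarz and the polar bound -/
theorem num_core [IsAlgClosed k] {W : Finset (PP k 2)} {α : ℕ}
    {f : PP k 2 → MvPolynomial (Fin 3) k} (hW : WData W α f) (hα : 2 ≤ α)
    {F : MvPolynomial (Fin 3) k} {δ e : ℕ} (hF : F.IsHomogeneous δ) (hirr : Irreducible F)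
    (h0 : ∑ w ∈ W, mu w.rep F + e = α * δ) (hδ : 2 ≤ δ) :
    ((α : ℤ) - 1) * δ < 4 * e + ((α : ℤ) ^ 2 - 1) := by
  have hpol := polar_bound (W := W) hF hirr hδ
  have hcard := hW.card
  have hcs : (∑ w ∈ W, (mu w.rep F : ℤ)) ^ 2 ≤ (W.card : ℤ) * ∑ w ∈ W, (mu w.rep F : ℤ) ^ 2 :=
    sq_sum_le_card_mul_sum_sq
  have hcard2 : 2 * (W.card : ℤ) = (α : ℤ) * (α + 1) := by
    rw [hcard]
    have h1 := Nat.triangle_succ α
    have h2 : (α + 1).choose 2 * 2 = (α + 1) * α := by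
      rw [Nat.choose_two_right, Nat.add_sub_cancel]
      exact Nat.div_mul_cancel (Nat.even_mul_pred_self (α + 1)).two_dvd
    have h3 : ((((α + 1).choose 2 * 2 : ℕ)) : ℤ) = (((α + 1) * α : ℕ) : ℤ) := by rw [h2]
    push_cast at h3
    linarith
  set s : ℤ := ∑ w ∈ W, (mu w.rep F : ℤ) with hs
  set q : ℤ := ∑ w ∈ W, (mu w.rep F : ℤ) ^ 2 with hq
  have hse : s = α * δ - e := by
    have : ((∑ w ∈ W, mu w.rep F + e : ℕ) : ℤ) = ((α * δ : ℕ) : ℤ) := by rw [h0]
    push_cast at this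
    linarith
  have hq2 : q - s + 1 ≤ (δ : ℤ) * (δ - 1) := by
    have h1 : ((∑ w ∈ W, mu w.rep F * (mu w.rep F - 1) + 1 : ℕ) : ℤ) ≤ ((δ * (δ - 1) : ℕ) : ℤ) := by
      exact_mod_cast hpol
    have h2 : ((δ * (δ - 1) : ℕ) : ℤ) = (δ : ℤ) * (δ - 1) := by
      rw [Nat.cast_mul, Nat.cast_sub (by omega)]; norm_num
    rw [h2] at h1
    have h3 : ((∑ w ∈ W, mu w.rep F * (mu w.rep F - 1) + 1 : ℕ) : ℤ) = q - s + 1 := by
      rw [Nat.cast_add, Nat.cast_sum, hq, hs, ← Finset.sum_sub_distrib, Nat.cast_one]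
      congr 1
      apply Finset.sum_congr rfl
      intro w _
      rcases Nat.eq_zero_or_pos (mu w.rep F) with h | h
      · rw [h]; simp
      · rw [Nat.cast_mul, Nat.cast_sub h]; push_cast; ring
    linarith
  have hα' : (2 : ℤ) ≤ α := by exact_mod_cast hα
  have hδ' : (2 : ℤ) ≤ δ := by exact_mod_cast hδ
  have he' : (0 : ℤ) ≤ e := by positivity
  have hWc : (0 : ℤ) ≤ W.card := by positivity
  have h1 : 2 * s ^ 2 ≤ (α : ℤ) * (α + 1) * q := by
    rw [← hcard2]; linarith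
  have hαα : (0 : ℤ) ≤ (α : ℤ) * (α + 1) := by positivity
  have h2 : (α : ℤ) * (α + 1) * q ≤ (α : ℤ) * (α + 1) * ((δ : ℤ) * (δ - 1) + s - 1) :=
    mul_le_mul_of_nonneg_left (by linarith) hαα
  have h3 : 2 * s ^ 2 ≤ (α : ℤ) * (α + 1) * ((δ : ℤ) * (δ - 1) + s - 1) := h1.trans h2
  rw [hse] at h3
  by_contra hcon
  push Not at hcon
  have hαδ : (0 : ℤ) ≤ (α : ℤ) * δ := by positivity
  have h4 : 0 ≤ (α : ℤ) * δ * (((α : ℤ) - 1) * δ - (4 * e + ((α : ℤ) ^ 2 - 1))) :=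
    mul_nonneg hαδ (by linarith)
  have h5 : 0 < (α : ℤ) * (α + 1) * (1 + e) := by positivity
  have h6 : (0 : ℤ) ≤ 2 * (e : ℤ) ^ 2 := by positivity
  have h7 : (α : ℤ) * δ * (((α : ℤ) - 1) * δ - (4 * e + ((α : ℤ) ^ 2 - 1)))
      + (α : ℤ) * (α + 1) * (1 + e) + 2 * (e : ℤ) ^ 2
      = 2 * ((α : ℤ) * δ - e) ^ 2 - (α : ℤ) * (α + 1) * ((δ : ℤ) * (δ - 1) + (α * δ - e) - 1) := by
    ring
  linarith

-- TARGET
/-- contracted curves are lines -/
theorem contracted [IsAlgClosed k] {W : Finset (PP k 2)} {α : ℕ}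
    {f : PP k 2 → MvPolynomial (Fin 3) k} (hW : WData W α f) (hα : 2 ≤ α)
    {F : MvPolynomial (Fin 3) k} {δ : ℕ} (hF : F.IsHomogeneous δ) (hirr : Irreducible F)
    (h0 : ∑ w ∈ W, mu w.rep F = α * δ) : δ = 1 := by
  classical
  by_contra hne
  have hF0 : F ≠ 0 := hirr.ne_zero
  rcases Nat.lt_or_ge δ 2 with hlt | hδ
  · -- degree zero
    have hd : δ = 0 := by omega
    subst hd
    have h1 : F.totalDegree = 0 := hF.totalDegree hF0
    rw [MvPolynomial.totalDegree_eq_zero_iff_eq_C] at h1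
    apply hirr.not_isUnit
    rw [h1]
    apply IsUnit.map
    rw [isUnit_iff_ne_zero]
    intro hz
    apply hF0
    rw [h1, hz, map_zero]
  · have hnum := num_core hW hα (e := 0) hF hirr (by simpa using h0) hδ
    have hα' : (2 : ℤ) ≤ α := by exact_mod_cast hα
    have hδα : δ ≤ α := by
      by_contra hc
      push Not at hc
      have hc' : (α : ℤ) + 1 ≤ δ := by exact_mod_cast hc
      have := mul_le_mul_of_nonneg_left hc' (by linarith : (0 : ℤ) ≤ (α : ℤ) - 1)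
      push_cast at hnum
      nlinarith
    have hcc := card_on_curve hW hF hF0 hδα
    have hpol := polar_bound (W := W) hF hirr hδ
    set WC := W.filter (fun w => eval w.rep F = 0) with hWC
    have hsum1 : ∑ w ∈ WC, mu w.rep F = α * δ := by
      rw [← h0, hWC]
      apply Finset.sum_filter_of_ne
      intro w _ hw
      exact (mu_pos_iff w.rep hF0).mp (Nat.pos_of_ne_zero hw)
    have hsum2 : ∑ w ∈ WC, mu w.rep F * (mu w.rep F - 1) ≤ ∑ w ∈ W, mu w.rep F * (mu w.rep F - 1) :=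
      Finset.sum_le_sum_of_subset (Finset.filter_subset _ _)
    have hpt : ∀ w ∈ WC, 2 * mu w.rep F ≤ mu w.rep F * (mu w.rep F - 1) + 2 := by
      intro w hw
      have hpos : 0 < mu w.rep F := by
        rw [mu_pos_iff w.rep hF0]
        exact (Finset.mem_filter.mp hw).2
      rcases Nat.lt_or_ge (mu w.rep F) 2 with h | h
      · have : mu w.rep F = 1 := by omega
        rw [this]
      · obtain ⟨t, ht⟩ := Nat.exists_eq_add_of_le h
        rw [ht]
        have : 2 + t - 1 = 1 + t := by omega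
        rw [this]
        nlinarith
    have hsum3 : 2 * (α * δ) ≤ ∑ w ∈ WC, mu w.rep F * (mu w.rep F - 1) + 2 * WC.card := by
      rw [← hsum1, Finset.mul_sum]
      calc ∑ w ∈ WC, 2 * mu w.rep F ≤ ∑ w ∈ WC, (mu w.rep F * (mu w.rep F - 1) + 2) :=
            Finset.sum_le_sum hpt
        _ = _ := by rw [Finset.sum_add_distrib, Finset.sum_const, smul_eq_mul, mul_comm WC.card 2]
    omega

-- TARGET
/-- the other curves have large deficit -/
theorem noncontracted [IsAlgClosed k] {W : Finset (PP k 2)} {α : ℕ}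
    {f : PP k 2 → MvPolynomial (Fin 3) k} (hW : WData W α f) (hα : 2 ≤ α)
    {F : MvPolynomial (Fin 3) k} {δ e : ℕ} (hF : F.IsHomogeneous δ) (hirr : Irreducible F)
    (h0 : ∑ w ∈ W, mu w.rep F + e = α * δ) (he : 1 ≤ e) : δ ≤ (α + 5) * e := by
  rcases Nat.lt_or_ge δ 2 with hlt | hδ
  · nlinarith
  · have hnum := num_core hW hα hF hirr h0 hδ
    have hα' : (2 : ℤ) ≤ α := by exact_mod_cast hα
    have he' : (1 : ℤ) ≤ e := by exact_mod_cast he
    have h1 : (δ : ℤ) ≤ α + 1 + 4 * e := by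
      by_contra hc
      push Not at hc
      have h2 := mul_le_mul_of_nonneg_left hc.le (by linarith : (0 : ℤ) ≤ (α : ℤ) - 1)
      nlinarith [mul_nonneg (by linarith : (0 : ℤ) ≤ (α : ℤ) - 2) (by linarith : (0 : ℤ) ≤ (e : ℤ))]
    have h3 : (δ : ℤ) ≤ (α + 5) * e := by nlinarith
    exact_mod_cast h3

end Pool.Agent.Chud
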