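import Mathlib
import Pool.Agent.Chud.Defs
import Pool.Agent.Chud.Tools
import Pool.Agent.Chud.PG3

set_option autoImplicit false

namespace Pool.Agent.Chud

open MvPolynomial

/-! ### tools -/

variable {k : Type*} [Field k]

theorem h170_mu_C {σ : Type*} [Finite σ] (v : σ → k) (c : k) (hc : c ≠ 0) :
    mu v (C c : MvPolynomial σ k) = 0 := by
  have h := mu_le_totalDegree v (F := (C c : MvPolynomial σ k)) (by simpa using hc)
  rw [totalDegree_C] at h
  omega

-- TARGET
open Classical in
theorem weights [IsAlgClosed k] {W : Finset (PP k 2)} {α : ℕ}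
    {f : PP k 2 → MvPolynomial (Fin 3) k} (hW : WData W α f) (hα : 2 ≤ α)
    {F : MvPolynomial (Fin 3) k} {d : ℕ} (hF : F.IsHomogeneous d) (hF0 : F ≠ 0) :
    ∃ (e : ℕ) (c : PP k 2 →₀ ℕ), ∑ w ∈ W, mu w.rep F + e = α * d ∧
      (∀ h, c h ≠ 0 → Contr W α h) ∧ c.sum (fun _ n => n) ≤ d ∧
      ∀ p : PP k 2, mu p.rep F ≤ (c.sum fun h n => if OnH h p then n else 0) + (α + 5) * e := by
  revert d
  revert hF0
  refine WfDvdMonoid.induction_on_irreducible F ?_ ?_ ?_
  · intro h; exact absurd rfl h
  · intro u hu hu0 d hd
    have hu' := (MvPolynomial.isUnit_iff_totalDegree_of_isReduced.1 hu).2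
    have hd0 : d = 0 := by rw [← hd.totalDegree hu0, hu']
    have hmu : ∀ p : PP k 2, mu p.rep u = 0 := by
      intro p
      have := mu_le_totalDegree p.rep hu0
      omega
    refine ⟨0, 0, ?_, ?_, ?_, ?_⟩
    · rw [hd0, Finset.sum_eq_zero (fun w _ => hmu w), mul_zero, add_zero]
    · intro h hh; exact absurd rfl hh
    · simp
    · intro p; rw [hmu p]; exact Nat.zero_le _
  · intro a i ha hi ih hia0 d hd
    have hi0 : i ≠ 0 := hi.ne_zero
    have hih := homog_of_dvd hd hia0 (dvd_mul_right i a)
    have hah := homog_of_dvd hd hia0 (dvd_mul_left a i)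
    have hdd : d = i.totalDegree + a.totalDegree := hd.inj_right (hih.mul hah) hia0
    obtain ⟨eA, cA, h1, h2, h3, h4⟩ := ih ha hah
    have hmul : ∀ p : PP k 2, mu p.rep (i * a) = mu p.rep i + mu p.rep a := fun p => mu_mul _ hi0 ha
    have hsum : ∑ w ∈ W, mu w.rep (i * a) = ∑ w ∈ W, mu w.rep i + ∑ w ∈ W, mu w.rep a := by
      rw [← Finset.sum_add_distrib]
      exact Finset.sum_congr rfl (fun w _ => hmul w)
    have hle := sum_mu_le hW hih hi
    by_cases he : ∑ w ∈ W, mu w.rep i = α * i.totalDegree
    · have hd1 : i.totalDegree = 1 := contracted hW hα hih hi he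
      rw [hd1] at hih he hdd
      obtain ⟨h, c0, hc0, hih2⟩ := exists_lin hih hi0
      have hmui : ∀ p : PP k 2, mu p.rep i = if OnH h p then 1 else 0 := by
        intro p
        rw [hih2, mu_mul _ (by simpa using hc0) (lin_ne_zero h), h170_mu_C _ _ hc0, zero_add]
        split_ifs with hp
        · exact (mu_lin h p).1 hp
        · exact (mu_lin h p).2 hp
      have hContr : Contr W α h := by
        unfold Contr
        rw [Finset.card_filter, ← Finset.sum_congr rfl (fun w _ => hmui w), he, mul_one]
      refine ⟨eA, cA + Finsupp.single h 1, ?_, ?_, ?_, ?_⟩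
      · rw [hsum, he, hdd]
        have := h1
        rw [mul_add]
        omega
      · intro h' hh'
        by_cases hhh : h' = h
        · rw [hhh]; exact hContr
        · apply h2
          intro h0
          apply hh'
          rw [Finsupp.add_apply, h0, Finsupp.single_apply, if_neg (fun hq => hhh hq.symm), add_zero]
      · rw [Finsupp.sum_add_index' (fun _ => rfl) (fun _ _ _ => rfl), Finsupp.sum_single_index rfl, hdd]
        omega
      · intro p
        rw [Finsupp.sum_add_index' (fun h' => by simp) (fun h' m n => by split_ifs <;> rfl),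
          Finsupp.sum_single_index (by simp), hmul p, hmui p]
        have := h4 p
        omega
    · obtain ⟨eI, heI⟩ := Nat.exists_eq_add_of_le hle
      have heI1 : 1 ≤ eI := by
        by_contra hc
        apply he
        have : eI = 0 := by omega
        rw [heI, this, add_zero]
      have hnc := noncontracted hW hα hih hi heI.symm heI1
      refine ⟨eA + eI, cA, ?_, h2, by omega, ?_⟩
      · rw [hsum, hdd, mul_add]
        omega
      · intro p
        have h5 := h4 p
        have h6 := mu_le_totalDegree p.rep hi0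
        rw [hmul p, mul_add]
        omega

end Pool.Agent.Chud
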