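import Mathlib
import Pool.Agent.Chud.Defs
import Pool.Agent.Chud.Tools
import Pool.Agent.Chud.PH

set_option autoImplicit false

namespace Pool.Agent.Chud

open MvPolynomial

/-! ### tools -/

variable {k : Type*} [Field k]

-- TARGET
open Classical in
/-- the contracted lines form a finite set -/
theorem finite_contr {W : Finset (PP k 2)} {α : ℕ} (hα : 2 ≤ α) :
    {h : PP k 2 | Contr W α h}.Finite := by
  have hfin : (⋃ x ∈ (W ×ˢ W).filter (fun x => x.1 ≠ x.2),
      {h : PP k 2 | OnH h x.1 ∧ OnH h x.2}).Finite := by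
    refine Set.Finite.biUnion (Finset.finite_toSet _) ?_
    intro x hx
    have hx' : x.1 ≠ x.2 := (Finset.mem_filter.mp hx).2
    apply Set.Subsingleton.finite
    intro a ha b hb
    exact line_unique hx' ha.1 ha.2 hb.1 hb.2
  refine hfin.subset ?_
  intro h hh
  have hcard : 1 < (W.filter (fun w => OnH h w)).card := by
    have : (W.filter (fun w => OnH h w)).card = α := hh
    omega
  obtain ⟨a, ha, b, hb, hab⟩ := Finset.one_lt_card.mp hcard
  rw [Finset.mem_filter] at ha hb
  refine Set.mem_biUnion (x := (a, b)) ?_ ⟨ha.2, hb.2⟩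
  exact Finset.mem_filter.mpr ⟨Finset.mk_mem_product ha.1 hb.1, hab⟩

end Pool.Agent.Chud
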