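import Mathlib
import Pool.Agent.Chud.Defs
import Pool.Agent.Chud.Tools
import Pool.Agent.Chud.PI1

set_option autoImplicit false

namespace Pool.Agent.Chud

open MvPolynomial

/-! ### tools -/

variable {k : Type*} [Field k]

open Classical in
theorem weights_eps [IsAlgClosed k] {S W : Finset (PP k 2)} (hWS : W ⊆ S) {α : ℕ}
    {f : PP k 2 → MvPolynomial (Fin 3) k} (hW : WData W α f) (hα : 2 ≤ α) (L : Finset (PP k 2))
    (hL : ∀ h, h ∈ L ↔ Contr W α h) (ε : ℝ) (hε : 0 < ε) (hε1 : ε ≤ 1)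
    (hS : ∃ (m d : ℕ) (F : MvPolynomial (Fin 3) k), 1 ≤ m ∧ F ≠ 0 ∧
      F.IsHomogeneous d ∧ (∀ p ∈ S, F ∈ mI p.rep ^ m) ∧ (2 * d : ℝ) ≤ (α + 1 + ε) * m) :
    ∃ g : L → ℝ, (∀ h, 0 ≤ g h) ∧ (∀ h, g h ≤ α + 2) ∧ 2 * ∑ h, g h ≤ α + 1 + ε ∧
      ∀ p ∈ S, 1 ≤ (∑ h : L, if OnH (h : PP k 2) p then g h else 0) +
        ((α + 5) * (α * ε / 2) : ℝ) := by
  obtain ⟨m, d, F, hm, hF0, hF, hFS, hd⟩ := hS
  obtain ⟨e, c, h1, h2, h3, h4⟩ := weights hW hα hF hF0
  have hmpos : (0 : ℝ) < m := by exact_mod_cast hm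
  have hmu : ∀ p ∈ S, m ≤ mu p.rep F := fun p hp => (mem_mI_pow_iff p.rep hF0 m).mp (hFS p hp)
  have hsupp : c.support ⊆ L := by
    intro h hh
    rw [hL]
    exact h2 h (Finsupp.mem_support_iff.mp hh)
  -- the bound on e
  have hcard : 2 * W.card = α * (α + 1) := by
    rw [hW.card, Nat.choose_two_right, Nat.add_sub_cancel, Nat.mul_div_cancel', mul_comm]
    exact (Nat.even_mul_pred_self (α + 1)).two_dvd
  have he1 : W.card * m ≤ ∑ w ∈ W, mu w.rep F := by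
    rw [← smul_eq_mul]
    exact Finset.card_nsmul_le_sum _ _ _ (fun w hw => hmu w (hWS hw))
  have he2 : 2 * e + α * (α + 1) * m ≤ 2 * (α * d) := by
    rw [← h1, ← hcard]
    nlinarith
  have he3 : (2 * e : ℝ) ≤ α * ε * m := by
    have h5 : (2 * e + α * (α + 1) * m : ℝ) ≤ 2 * (α * d) := by exact_mod_cast he2
    have h6 : (α : ℝ) * (2 * d) ≤ α * ((α + 1 + ε) * m) := by gcongr
    nlinarith
  refine ⟨fun h => (c h : ℝ) / m, fun h => by positivity, ?_, ?_, ?_⟩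
  · intro h
    have h5 : c h ≤ d := by
      by_cases h6 : (h : PP k 2) ∈ c.support
      · refine le_trans ?_ h3
        rw [Finsupp.sum]
        exact Finset.single_le_sum (f := fun x => c x) (fun _ _ => Nat.zero_le _) h6
      · rw [Finsupp.notMem_support_iff.mp h6]; exact Nat.zero_le _
    have h6 : (c h : ℝ) ≤ d := by exact_mod_cast h5
    rw [div_le_iff₀ hmpos]
    have h7 : (0 : ℝ) ≤ d := Nat.cast_nonneg d
    have h8 : (0:ℝ) ≤ α := Nat.cast_nonneg α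
    have h9 : (α + 1 + ε) * (m : ℝ) ≤ (α + 2) * m :=
      mul_le_mul_of_nonneg_right (by linarith) hmpos.le
    linarith
  · rw [← Finset.sum_div]
    have h5 : (∑ h : L, (c h : ℝ)) = ((c.sum fun _ n => n : ℕ) : ℝ) := by
      rw [Finset.sum_coe_sort L (fun h => (c h : ℝ))]
      rw [Finsupp.sum, Finset.sum_subset hsupp
        (fun h _ hh => Finsupp.notMem_support_iff.mp hh)]
      push_cast
      rfl
    rw [h5, mul_div_assoc', div_le_iff₀ hmpos]
    have h6 : ((c.sum fun _ n => n : ℕ) : ℝ) ≤ d := by exact_mod_cast h3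
    linarith
  · intro p hp
    have h5 := (hmu p hp).trans (h4 p)
    have h6 : (c.sum fun h n => if OnH h p then n else 0) = ∑ h ∈ L, if OnH h p then c h else 0 := by
      rw [Finsupp.sum]
      refine Finset.sum_subset hsupp (fun h _ hh => ?_)
      rw [Finsupp.notMem_support_iff.mp hh]
      simp
    rw [h6] at h5
    have h7 : (m : ℝ) ≤ (∑ h ∈ L, if OnH h p then (c h : ℝ) else 0) + (α + 5) * e := by
      have := (Nat.cast_le (α := ℝ)).mpr h5
      push_cast at this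
      exact this
    have h8 : (∑ h : L, if OnH (h : PP k 2) p then (c h : ℝ) / m else 0)
        = (∑ h ∈ L, if OnH h p then (c h : ℝ) else 0) / m := by
      rw [Finset.sum_coe_sort L (fun h => if OnH h p then (c h : ℝ) / m else 0), Finset.sum_div]
      refine Finset.sum_congr rfl (fun h _ => ?_)
      split_ifs <;> simp
    rw [h8]
    have h9 : ((α + 5) * (α * ε / 2) : ℝ) = ((α + 5) * (α * ε * m / 2)) / m := by
      field_simp
    rw [h9, ← add_div, le_div_iff₀ hmpos, one_mul]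
    refine h7.trans ?_
    have h10 : (e : ℝ) ≤ α * ε * m / 2 := by linarith
    gcongr

-- TARGET
open Classical in
theorem limit_weights [IsAlgClosed k] {S W : Finset (PP k 2)} (hWS : W ⊆ S) {α : ℕ}
    {f : PP k 2 → MvPolynomial (Fin 3) k} (hW : WData W α f) (hα : 2 ≤ α)
    (hS : ∀ ε : ℝ, 0 < ε → ∃ (m d : ℕ) (F : MvPolynomial (Fin 3) k), 1 ≤ m ∧ F ≠ 0 ∧
      F.IsHomogeneous d ∧ (∀ p ∈ S, F ∈ mI p.rep ^ m) ∧ (2 * d : ℝ) ≤ (α + 1 + ε) * m) :
    ∃ (L : Finset (PP k 2)) (γ : PP k 2 → ℝ), (∀ h ∈ L, Contr W α h) ∧ (∀ h, 0 ≤ γ h) ∧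
      2 * ∑ h ∈ L, γ h ≤ α + 1 ∧ ∀ p ∈ S, 1 ≤ ∑ h ∈ L.filter (fun h => OnH h p), γ h := by
  set L : Finset (PP k 2) := (finite_contr (W := W) hα).toFinset with hLdef
  have hL : ∀ h, h ∈ L ↔ Contr W α h := by
    intro h
    rw [hLdef, Set.Finite.mem_toFinset]
    rfl
  have hex : ∀ n : ℕ, ∃ g : L → ℝ, (∀ h, 0 ≤ g h) ∧ (∀ h, g h ≤ α + 2) ∧
      2 * ∑ h, g h ≤ α + 1 + 1 / ((n : ℝ) + 1) ∧
      ∀ p ∈ S, 1 ≤ (∑ h : L, if OnH (h : PP k 2) p then g h else 0) +
        ((α + 5) * (α * (1 / ((n : ℝ) + 1)) / 2) : ℝ) := by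
    intro n
    have hpos : (0 : ℝ) < 1 / ((n : ℝ) + 1) := by positivity
    refine weights_eps hWS hW hα L hL _ hpos ?_ (hS _ hpos)
    rw [div_le_one (by positivity)]
    have : (0:ℝ) ≤ n := Nat.cast_nonneg n
    linarith
  choose g hg0 hg1 hg2 hg3 using hex
  have hcpt : IsCompact (Set.Icc (0 : L → ℝ) (fun _ => (α : ℝ) + 2)) := isCompact_Icc
  obtain ⟨γ₀, hγ₀, φ, hφ, hlim⟩ := hcpt.tendsto_subseq (x := g)
    (fun n => ⟨fun h => hg0 n h, fun h => hg1 n h⟩)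
  have hlim' : ∀ h, Filter.Tendsto (fun n => g (φ n) h) Filter.atTop (nhds (γ₀ h)) := by
    intro h
    exact (tendsto_pi_nhds.mp hlim) h
  have hinv : Filter.Tendsto (fun n => 1 / ((φ n : ℝ) + 1)) Filter.atTop (nhds 0) :=
    tendsto_one_div_add_atTop_nhds_zero_nat.comp hφ.tendsto_atTop
  have hsum : ∀ u : PP k 2 → ℝ, ∑ h ∈ L, u h = ∑ h : L, u h := fun u =>
    (Finset.sum_coe_sort L u).symm
  refine ⟨L, fun h => if hh : h ∈ L then γ₀ ⟨h, hh⟩ else 0, fun h hh => (hL h).mp hh,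
    fun h => ?_, ?_, fun p hp => ?_⟩
  · beta_reduce
    split_ifs with hh
    · exact hγ₀.1 _
    · exact le_rfl
  · rw [hsum]
    have h1 : ∑ h : L, (if hh : (h : PP k 2) ∈ L then γ₀ ⟨h, hh⟩ else 0) = ∑ h, γ₀ h := by
      refine Finset.sum_congr rfl (fun h _ => ?_)
      rw [dif_pos h.2]
    rw [h1]
    have h2 : Filter.Tendsto (fun n => 2 * ∑ h, g (φ n) h) Filter.atTop
        (nhds (2 * ∑ h, γ₀ h)) :=
      (tendsto_finsetSum _ (fun h _ => hlim' h)).const_mul 2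
    have h3 : Filter.Tendsto (fun n => (α : ℝ) + 1 + 1 / ((φ n : ℝ) + 1)) Filter.atTop
        (nhds ((α : ℝ) + 1)) := by
      simpa using hinv.const_add ((α : ℝ) + 1)
    exact le_of_tendsto_of_tendsto' h2 h3 (fun n => hg2 (φ n))
  · rw [Finset.sum_filter, hsum]
    have h1 : ∑ h : L, (if OnH (h : PP k 2) p then
        (if hh : (h : PP k 2) ∈ L then γ₀ ⟨h, hh⟩ else 0) else 0)
        = ∑ h : L, if OnH (h : PP k 2) p then γ₀ h else 0 := by
      refine Finset.sum_congr rfl (fun h _ => ?_)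
      rw [dif_pos h.2]
    rw [h1]
    have h2 : Filter.Tendsto (fun n => (∑ h : L, if OnH (h : PP k 2) p then g (φ n) h else 0) +
        ((α + 5) * (α * (1 / ((φ n : ℝ) + 1)) / 2) : ℝ)) Filter.atTop
        (nhds ((∑ h : L, if OnH (h : PP k 2) p then γ₀ h else 0) + 0)) := by
      refine Filter.Tendsto.add ?_ ?_
      · refine tendsto_finsetSum _ (fun h _ => ?_)
        split_ifs
        · exact hlim' h
        · exact tendsto_const_nhds
      · have h4 := (hinv.const_mul ((α : ℝ) / 2)).const_mul ((α : ℝ) + 5)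
        simp only [mul_zero] at h4
        refine h4.congr (fun n => ?_)
        ring
    rw [add_zero] at h2
    exact ge_of_tendsto' h2 (fun n => hg3 (φ n) p hp)

end Pool.Agent.Chud

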