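import Mathlib
import Pool.Agent.Chud.Defs
import Pool.Agent.Chud.Tools
import Pool.Agent.Chud.PI2

set_option autoImplicit false

namespace Pool.Agent.Chud

open MvPolynomial

/-! ### tools -/

variable {k : Type*} [Field k]

open Classical in
theorem star_aux_swap (W L : Finset (PP k 2)) (γ : PP k 2 → ℝ) :
    ∑ w ∈ W, ∑ h ∈ L.filter (fun h => OnH h w), γ h =
      ∑ h ∈ L, ((W.filter (fun w => OnH h w)).card : ℝ) * γ h := by
  have h1 : ∀ w ∈ W, ∑ h ∈ L.filter (fun h => OnH h w), γ h =
      ∑ h ∈ L, if OnH h w then γ h else 0 := fun w _ => Finset.sum_filter _ _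
  rw [Finset.sum_congr rfl h1, Finset.sum_comm]
  refine Finset.sum_congr rfl (fun h _ => ?_)
  rw [← Finset.sum_filter, Finset.sum_const, nsmul_eq_mul]

theorem meet_eq {h h' w w' : PP k 2} (hne : h ≠ h') (h1 : OnH h w) (h2 : OnH h' w) (h3 : OnH h w')
    (h4 : OnH h' w') : w = w' :=
  (lines_meet hne).unique ⟨h1, h2⟩ ⟨h3, h4⟩

open Classical in
/-- the weights are all `1/2` -/
theorem star_aux_half {S W : Finset (PP k 2)} (hWS : W ⊆ S) {α : ℕ}
    {f : PP k 2 → MvPolynomial (Fin 3) k} (hW : WData W α f) (hα : 2 ≤ α)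
    (L : Finset (PP k 2)) (γ : PP k 2 → ℝ) (hL : ∀ h ∈ L, Contr W α h) (hγ : ∀ h, 0 ≤ γ h)
    (hsum : 2 * ∑ h ∈ L, γ h ≤ α + 1)
    (hS : ∀ p ∈ S, 1 ≤ ∑ h ∈ L.filter (fun h => OnH h p), γ h) :
    (∀ h ∈ L, γ h = 1 / 2) ∧ L.card = α + 1 ∧
      ∀ w ∈ W, ∑ h ∈ L.filter (fun h => OnH h w), γ h = 1 := by
  have hαr : (2 : ℝ) ≤ α := by exact_mod_cast hα
  have hWc : (W.card : ℝ) = (α + 1) * α / 2 := by
    rw [hW.card, Nat.cast_choose_two]; push_cast; ring
  have hdc := star_aux_swap W L γ
  have hdc2 : ∑ h ∈ L, ((W.filter (fun w => OnH h w)).card : ℝ) * γ h = α * ∑ h ∈ L, γ h := by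
    rw [Finset.mul_sum]
    refine Finset.sum_congr rfl (fun h hh => ?_)
    have : (W.filter (fun w => OnH h w)).card = α := hL h hh
    rw [this]
  rw [hdc2] at hdc
  have hge : ∀ w ∈ W, 0 ≤ (∑ h ∈ L.filter (fun h => OnH h w), γ h) - 1 := by
    intro w hw
    have := hS w (hWS hw)
    linarith
  have hle : ∑ w ∈ W, ((∑ h ∈ L.filter (fun h => OnH h w), γ h) - 1) ≤ 0 := by
    rw [Finset.sum_sub_distrib, hdc, Finset.sum_const, nsmul_eq_mul, mul_one, hWc]
    nlinarith
  have heq0 : ∑ w ∈ W, ((∑ h ∈ L.filter (fun h => OnH h w), γ h) - 1) = 0 :=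
    le_antisymm hle (Finset.sum_nonneg hge)
  have hone : ∀ w ∈ W, ∑ h ∈ L.filter (fun h => OnH h w), γ h = 1 := by
    intro w hw
    have := (Finset.sum_eq_zero_iff_of_nonneg hge).1 heq0 w hw
    linarith
  have htot : 2 * ∑ h ∈ L, γ h = α + 1 := by
    rw [Finset.sum_sub_distrib, hdc, Finset.sum_const, nsmul_eq_mul, mul_one, hWc] at heq0
    have h1 : (α : ℝ) * (2 * ∑ h ∈ L, γ h) = α * (α + 1) := by linarith
    exact mul_left_cancel₀ (by linarith) h1
  -- at least one half
  have hhalf : ∀ h ∈ L, 1 / 2 ≤ γ h := by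
    intro h hh
    have hc : (W.filter (fun w => OnH h w)).card = α := hL h hh
    have h1 := star_aux_swap (W.filter (fun w => OnH h w)) (L.erase h) γ
    have h2 : ∑ w ∈ W.filter (fun w => OnH h w),
        ∑ h' ∈ (L.erase h).filter (fun h' => OnH h' w), γ h' = α * (1 - γ h) := by
      have h3 : ∀ w ∈ W.filter (fun w => OnH h w),
          ∑ h' ∈ (L.erase h).filter (fun h' => OnH h' w), γ h' = 1 - γ h := by
        intro w hw
        rw [Finset.mem_filter] at hw
        have h4 : (L.erase h).filter (fun h' => OnH h' w) =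
            (L.filter (fun h' => OnH h' w)).erase h := by
          ext x
          simp only [Finset.mem_filter, Finset.mem_erase]
          tauto
        rw [h4, Finset.sum_erase_eq_sub (Finset.mem_filter.2 ⟨hh, hw.2⟩), hone w hw.1]
      rw [Finset.sum_congr rfl h3, Finset.sum_const, hc, nsmul_eq_mul]
    have h5 : ∑ h' ∈ L.erase h,
        (((W.filter (fun w => OnH h w)).filter (fun w => OnH h' w)).card : ℝ) * γ h' ≤
        ∑ h' ∈ L.erase h, γ h' := by
      refine Finset.sum_le_sum (fun h' hh' => ?_)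
      have hne : h ≠ h' := (Finset.ne_of_mem_erase hh').symm
      have h6 : ((W.filter (fun w => OnH h w)).filter (fun w => OnH h' w)).card ≤ 1 := by
        rw [Finset.card_le_one]
        intro a ha b hb
        simp only [Finset.mem_filter] at ha hb
        exact meet_eq hne ha.1.2 ha.2 hb.1.2 hb.2
      have h7 : (((W.filter (fun w => OnH h w)).filter (fun w => OnH h' w)).card : ℝ) ≤ 1 := by
        exact_mod_cast h6
      calc _ ≤ 1 * γ h' := mul_le_mul_of_nonneg_right h7 (hγ h')
        _ = γ h' := one_mul _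
    rw [h2] at h1
    rw [← h1, Finset.sum_erase_eq_sub hh] at h5
    nlinarith
  -- a second line through a point forces one half
  have hsecond : ∀ w ∈ W, ∀ h ∈ L, ∀ h' ∈ L, h ≠ h' → OnH h w → OnH h' w →
      γ h = 1 / 2 ∧ γ h' = 1 / 2 := by
    intro w hw h hh h' hh' hne ho ho'
    have h1 : γ h + γ h' ≤ 1 := by
      rw [← hone w hw, ← Finset.sum_pair hne]
      refine Finset.sum_le_sum_of_subset_of_nonneg ?_ (fun x _ _ => hγ x)
      intro x hx
      rw [Finset.mem_insert, Finset.mem_singleton] at hx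
      rcases hx with rfl | rfl
      · exact Finset.mem_filter.2 ⟨hh, ho⟩
      · exact Finset.mem_filter.2 ⟨hh', ho'⟩
    have h2 := hhalf h hh
    have h3 := hhalf h' hh'
    constructor <;> linarith
  -- a point with only one line forces one
  have hsingle : ∀ w ∈ W, ∀ h ∈ L, OnH h w → (∀ h' ∈ L, OnH h' w → h' = h) → γ h = 1 := by
    intro w hw h hh ho hun
    have h1 : L.filter (fun h' => OnH h' w) = {h} := by
      ext x
      rw [Finset.mem_filter, Finset.mem_singleton]
      constructor
      · rintro ⟨h2, h3⟩; exact hun x h2 h3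
      · rintro rfl; exact ⟨hh, ho⟩
    have h2 := hone w hw
    rw [h1, Finset.sum_singleton] at h2
    exact h2
  by_cases hex : ∃ h0 ∈ L, γ h0 ≠ 1
  · obtain ⟨h0, hh0, hg0⟩ := hex
    have hc : (W.filter (fun w => OnH h0 w)).card = α := hL h0 hh0
    have hother : ∀ w ∈ W.filter (fun w => OnH h0 w), ∃ h' ∈ L, h' ≠ h0 ∧ OnH h' w := by
      intro w hw
      rw [Finset.mem_filter] at hw
      by_contra hno
      push Not at hno
      apply hg0
      refine hsingle w hw.1 h0 hh0 hw.2 (fun h' hh' ho' => ?_)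
      by_contra hne
      exact hno h' hh' hne ho'
    choose! g hg1 hg2 hg3 using hother
    have hinj : Set.InjOn g (W.filter (fun w => OnH h0 w) : Set (PP k 2)) := by
      intro w hw w' hw' heq
      have hw1 := Finset.mem_coe.1 hw
      have hw2 := Finset.mem_coe.1 hw'
      have h1 := hg3 w hw1
      have h2 := hg3 w' hw2
      rw [← heq] at h2
      exact meet_eq (hg2 w hw1).symm (Finset.mem_filter.1 hw1).2 h1 (Finset.mem_filter.1 hw2).2 h2
    set P : Finset (PP k 2) := insert h0 ((W.filter (fun w => OnH h0 w)).image g) with hP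
    have hPc : P.card = α + 1 := by
      rw [hP, Finset.card_insert_of_notMem, Finset.card_image_of_injOn hinj, hc]
      intro hmem
      obtain ⟨w, hw, hwe⟩ := Finset.mem_image.1 hmem
      exact hg2 w hw hwe
    have hPL : P ⊆ L := by
      intro x hx
      rcases Finset.mem_insert.1 hx with rfl | hx
      · exact hh0
      · obtain ⟨w, hw, rfl⟩ := Finset.mem_image.1 hx
        exact hg1 w hw
    have hPsum : ((α : ℝ) + 1) / 2 ≤ ∑ h ∈ P, γ h := by
      have h1 : ∑ h ∈ P, (1 / 2 : ℝ) ≤ ∑ h ∈ P, γ h :=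
        Finset.sum_le_sum (fun h hh => hhalf h (hPL hh))
      rw [Finset.sum_const, hPc, nsmul_eq_mul] at h1
      push_cast at h1
      linarith
    have hLP : L = P := by
      by_contra hne
      obtain ⟨x, hx, hxP⟩ := Finset.exists_of_ssubset (hPL.ssubset_of_ne (Ne.symm hne))
      have h1 : ∑ h ∈ insert x P, γ h ≤ ∑ h ∈ L, γ h := by
        refine Finset.sum_le_sum_of_subset_of_nonneg ?_ (fun y _ _ => hγ y)
        exact Finset.insert_subset hx hPL
      rw [Finset.sum_insert hxP] at h1
      have h2 := hhalf x hx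
      linarith
    refine ⟨?_, by rw [hLP]; exact hPc, hone⟩
    have hne0 : ∑ h ∈ L, (γ h - 1 / 2) = 0 := by
      rw [Finset.sum_sub_distrib, Finset.sum_const, nsmul_eq_mul, hLP, hPc, ← hLP]
      push_cast
      linarith
    intro h hh
    have := (Finset.sum_eq_zero_iff_of_nonneg (fun x hx => by have := hhalf x hx; linarith)).1 hne0
      h hh
    linarith
  · exfalso
    push Not at hex
    have hLc : 2 * L.card = α + 1 := by
      have h1 : ∑ h ∈ L, γ h = L.card := by
        rw [Finset.sum_congr rfl hex, Finset.sum_const, nsmul_eq_mul, mul_one]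
      rw [h1] at htot
      exact_mod_cast htot
    have hL0 : 0 < L.card := by omega
    obtain ⟨hx, hxL⟩ := Finset.card_pos.1 hL0
    set F : MvPolynomial (Fin 3) k := (∏ h ∈ L, lin h) * (lin hx) ^ (α - 1 - L.card) with hF
    have hFh : F.IsHomogeneous (α - 1) := by
      have h1 : (∏ h ∈ L, lin h).IsHomogeneous (∑ h ∈ L, 1) :=
        MvPolynomial.IsHomogeneous.prod _ _ _ (fun h _ => lin_homog h)
      have h2 : ((lin hx) ^ (α - 1 - L.card)).IsHomogeneous (1 * (α - 1 - L.card)) :=
        (lin_homog hx).pow _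
      have h3 := h1.mul h2
      have h4 : ∑ h ∈ L, 1 + 1 * (α - 1 - L.card) = α - 1 := by
        rw [Finset.sum_const, smul_eq_mul]; omega
      rw [h4] at h3
      exact h3
    have hFz : ∀ w ∈ W, eval w.rep F = 0 := by
      intro w hw
      have h1 := hone w hw
      have h2 : (L.filter (fun h => OnH h w)).Nonempty := by
        by_contra hne
        rw [Finset.not_nonempty_iff_eq_empty] at hne
        rw [hne, Finset.sum_empty] at h1
        exact zero_ne_one h1
      obtain ⟨h, hh⟩ := h2
      rw [Finset.mem_filter] at hh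
      rw [hF, map_mul, map_prod, Finset.prod_eq_zero hh.1 ((eval_lin h w).2 hh.2), zero_mul]
    have hF0 := hW.inj F hFh hFz
    have : F ≠ 0 := by
      rw [hF]
      exact mul_ne_zero (Finset.prod_ne_zero_iff.2 (fun h _ => lin_ne_zero h))
        (pow_ne_zero _ (lin_ne_zero hx))
    exact this hF0

-- TARGET
open Classical in
theorem star_of_weights {S W : Finset (PP k 2)} (hWS : W ⊆ S) {α : ℕ}
    {f : PP k 2 → MvPolynomial (Fin 3) k} (hW : WData W α f) (hα : 2 ≤ α)
    (L : Finset (PP k 2)) (γ : PP k 2 → ℝ) (hL : ∀ h ∈ L, Contr W α h) (hγ : ∀ h, 0 ≤ γ h)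
    (hsum : 2 * ∑ h ∈ L, γ h ≤ α + 1)
    (hS : ∀ p ∈ S, 1 ≤ ∑ h ∈ L.filter (fun h => OnH h p), γ h) : IsStar S := by
  obtain ⟨hhalf, hLc, hone⟩ := star_aux_half hWS hW hα L γ hL hγ hsum hS
  have hsumc : ∀ p : PP k 2, ∑ h ∈ L.filter (fun h => OnH h p), γ h =
      ((L.filter (fun h => OnH h p)).card : ℝ) / 2 := by
    intro p
    rw [Finset.sum_congr rfl (fun h hh => hhalf h (Finset.mem_filter.1 hh).1), Finset.sum_const,
      nsmul_eq_mul]
    ring
  have hcW : ∀ w ∈ W, (L.filter (fun h => OnH h w)).card = 2 := by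
    intro w hw
    have h1 := hone w hw
    rw [hsumc] at h1
    have h2 : ((L.filter (fun h => OnH h w)).card : ℝ) = 2 := by linarith
    exact_mod_cast h2
  -- the pairs of lines
  have himg : W.image (fun w => L.filter (fun h => OnH h w)) = Finset.powersetCard 2 L := by
    apply Finset.eq_of_subset_of_card_le
    · intro T hT
      obtain ⟨w, hw, rfl⟩ := Finset.mem_image.1 hT
      exact Finset.mem_powersetCard.2 ⟨Finset.filter_subset _ _, hcW w hw⟩
    · rw [Finset.card_powersetCard, hLc, ← hW.card, Finset.card_image_of_injOn]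
      intro w hw w' hw' heq
      have hw1 := Finset.mem_coe.1 hw
      have h1 := hcW w hw1
      obtain ⟨h, h', hne, hpair⟩ := Finset.card_eq_two.1 h1
      have heq' : L.filter (fun h => OnH h w) = L.filter (fun h => OnH h w') := heq
      have m1 : h ∈ L.filter (fun h => OnH h w) := by rw [hpair]; simp
      have m2 : h' ∈ L.filter (fun h => OnH h w) := by rw [hpair]; simp
      have m3 := m1
      have m4 := m2
      rw [heq'] at m3 m4
      exact meet_eq hne (Finset.mem_filter.1 m1).2 (Finset.mem_filter.1 m2).2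
        (Finset.mem_filter.1 m3).2 (Finset.mem_filter.1 m4).2
  have hmeet : ∀ h ∈ L, ∀ h' ∈ L, h ≠ h' → ∀ p, OnH h p → OnH h' p → p ∈ W := by
    intro h hh h' hh' hne p hp hp'
    have h1 : ({h, h'} : Finset (PP k 2)) ∈ Finset.powersetCard 2 L := by
      rw [Finset.mem_powersetCard]
      refine ⟨?_, Finset.card_pair hne⟩
      intro x hx
      rw [Finset.mem_insert, Finset.mem_singleton] at hx
      rcases hx with rfl | rfl
      · exact hh
      · exact hh'
    rw [← himg] at h1
    obtain ⟨w, hw, hwe⟩ := Finset.mem_image.1 h1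
    have m1 : h ∈ L.filter (fun h => OnH h w) := by rw [hwe]; simp
    have m2 : h' ∈ L.filter (fun h => OnH h w) := by rw [hwe]; simp
    have := meet_eq hne hp hp' (Finset.mem_filter.1 m1).2 (Finset.mem_filter.1 m2).2
    rw [this]; exact hw
  have htwo : ∀ p : PP k 2, 2 ≤ (L.filter (fun h => OnH h p)).card → p ∈ W := by
    intro p hp
    obtain ⟨h, hh, h', hh', hne⟩ := Finset.one_lt_card.1 (by omega :
      1 < (L.filter (fun h => OnH h p)).card)
    rw [Finset.mem_filter] at hh hh'
    exact hmeet h hh.1 h' hh'.1 hne p hh.2 hh'.2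
  refine ⟨L, by omega, ?_, ?_⟩
  · intro p
    by_contra hlt
    push Not at hlt
    have := hcW p (htwo p hlt.le)
    omega
  · intro p
    constructor
    · intro hp
      have h1 := hS p hp
      rw [hsumc] at h1
      have h2 : (2 : ℝ) ≤ ((L.filter (fun h => OnH h p)).card : ℝ) := by linarith
      have h3 : 2 ≤ (L.filter (fun h => OnH h p)).card := by exact_mod_cast h2
      exact hcW p (htwo p h3)
    · intro hp
      exact hWS (htwo p hp.ge)

end Pool.Agent.Chud
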